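import Mathlib

/-!
# Quadratic rational functions over an algebraically closed field

Every pair of quadratic polynomials without common root is, up to Moebius maps on both sides,
`x ^ 2`, or `x ^ 2 - x` in characteristic two.
-/

set_option autoImplicit false

namespace Pool.Agent.FDT

variable {K : Type*} [Field K] [IsAlgClosed K]

/-- the normal form -/
def Rep (g2 g1 g0 h2 h1 h0 : K) : Prop :=
  ∃ a b c d r s t u e : K, a * d - b * c ≠ 0 ∧ r * u - s * t ≠ 0 ∧
    (e = 0 ∨ (e = 1 ∧ (2 : K) = 0)) ∧ ∀ x,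
    g2 * x ^ 2 + g1 * x + g0 =
      a * ((r * x + s) ^ 2 - e * ((r * x + s) * (t * x + u))) + b * (t * x + u) ^ 2 ∧
    h2 * x ^ 2 + h1 * x + h0 =
      c * ((r * x + s) ^ 2 - e * ((r * x + s) * (t * x + u))) + d * (t * x + u) ^ 2

omit [IsAlgClosed K] in
theorem Rep.swap {g2 g1 g0 h2 h1 h0 : K} (H : Rep g2 g1 g0 h2 h1 h0) :
    Rep h2 h1 h0 g2 g1 g0 := by
  obtain ⟨a, b, c, d, r, s, t, u, e, h1, h2, h3, h4⟩ := H
  refine ⟨c, d, a, b, r, s, t, u, e, fun h => h1 ?_, h2, h3, fun x => ⟨(h4 x).2, (h4 x).1⟩⟩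
  linear_combination -h

theorem exists_quad_root {a b c : K} (ha : a ≠ 0) : ∃ x, a * x ^ 2 + b * x + c = 0 := by
  have hd : (Polynomial.C a * Polynomial.X ^ 2 + Polynomial.C b * Polynomial.X +
      Polynomial.C c).degree ≠ 0 := by
    rw [Polynomial.degree_quadratic ha]
    decide
  obtain ⟨x, hx⟩ := IsAlgClosed.exists_root _ hd
  exact ⟨x, by simpa using hx⟩

theorem exists_sq (a : K) : ∃ x, x ^ 2 = a := IsAlgClosed.exists_pow_nat_eq a (by norm_num)

theorem quad1 {g2 g1 g0 h2 h1 h0 α β : K} (hα : α ≠ 0)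
    (hnd : ∀ x, ¬ (g2 * x ^ 2 + g1 * x + g0 = 0 ∧ h2 * x ^ 2 + h1 * x + h0 = 0))
    (hdeg : g2 ≠ 0 ∨ h2 ≠ 0)
    (hdisc : (α * g1 + β * h1) ^ 2 = 4 * (α * g0 + β * h0) * (α * g2 + β * h2)) :
    Rep g2 g1 g0 h2 h1 h0 := by
  obtain ⟨ρ, hρ⟩ := exists_sq (α * g2 + β * h2)
  obtain ⟨σ, hσ, h3⟩ : ∃ σ, σ ^ 2 = α * g0 + β * h0 ∧ 2 * ρ * σ = α * g1 + β * h1 := by
    obtain ⟨σ, hσ⟩ := exists_sq (α * g0 + β * h0)
    have h3 : (2 * ρ * σ) ^ 2 = (α * g1 + β * h1) ^ 2 := by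
      rw [hdisc, ← hρ, ← hσ]
      ring
    rcases sq_eq_sq_iff_eq_or_eq_neg.1 h3 with h4 | h4
    · exact ⟨σ, hσ, h4⟩
    · exact ⟨-σ, by rw [neg_sq, hσ], by linear_combination -h4⟩
  have hq : ∀ x, α * (g2 * x ^ 2 + g1 * x + g0) + β * (h2 * x ^ 2 + h1 * x + h0) =
      (ρ * x + σ) ^ 2 := fun x => by
    linear_combination -x ^ 2 * hρ - x * h3 - hσ
  -- the square is not zero
  have h0' : ¬ (ρ = 0 ∧ σ = 0) := by
    rintro ⟨h5, h6⟩
    have hh2 : h2 ≠ 0 := by
      intro h7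
      rw [h5, h7] at hρ
      have h8 : α * g2 = 0 := by linear_combination -hρ
      rcases hdeg with h | h
      · exact h ((mul_eq_zero.1 h8).resolve_left hα)
      · exact h h7
    obtain ⟨x, hx⟩ := exists_quad_root (b := h1) (c := h0) hh2
    refine hnd x ⟨?_, hx⟩
    have h7 := hq x
    rw [hx, h5, h6] at h7
    have h8 : α * (g2 * x ^ 2 + g1 * x + g0) = 0 := by linear_combination h7
    exact (mul_eq_zero.1 h8).resolve_left hα
  -- coordinates
  obtain ⟨r, s, l, m, n, hdet, hl, hh⟩ : ∃ r s l m n : K, r * σ - s * ρ ≠ 0 ∧ l ≠ 0 ∧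
      ∀ x, h2 * x ^ 2 + h1 * x + h0 = l * (r * x + s) ^ 2 + m * ((r * x + s) * (ρ * x + σ)) +
        n * (ρ * x + σ) ^ 2 := by
    by_cases hρ0 : ρ = 0
    · have hσ0 : σ ≠ 0 := fun h => h0' ⟨hρ0, h⟩
      refine ⟨1, 0, h2, h1 / σ, h0 / σ ^ 2, ?_, ?_, fun x => ?_⟩
      · rw [one_mul, zero_mul, sub_zero]
        exact hσ0
      · intro h7
        rw [hρ0, h7] at hρ
        have h8 : α * g2 = 0 := by linear_combination -hρ
        rcases hdeg with h | h
        · exact h ((mul_eq_zero.1 h8).resolve_left hα)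
        · exact h h7
      · rw [hρ0]
        field_simp
        ring
    · refine ⟨0, 1, h2 * (-σ / ρ) ^ 2 + h1 * (-σ / ρ) + h0, h1 / ρ - 2 * σ * h2 / ρ ^ 2,
        h2 / ρ ^ 2, ?_, ?_, fun x => ?_⟩
      · rw [zero_mul, one_mul, zero_sub]
        exact neg_ne_zero.2 hρ0
      · intro h7
        refine hnd (-σ / ρ) ⟨?_, h7⟩
        have h8 := hq (-σ / ρ)
        rw [h7] at h8
        have h9 : ρ * (-σ / ρ) + σ = 0 := by
          rw [mul_div_cancel₀ _ hρ0, neg_add_cancel]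
        rw [h9] at h8
        have h10 : α * (g2 * (-σ / ρ) ^ 2 + g1 * (-σ / ρ) + g0) = 0 := by
          linear_combination h8
        exact (mul_eq_zero.1 h10).resolve_left hα
      · field_simp
        ring
  -- completing the square
  obtain ⟨r', s', e, l', n', hdet', he, hl', hh'⟩ : ∃ r' s' e l' n' : K,
      r' * σ - s' * ρ ≠ 0 ∧ (e = 0 ∨ (e = 1 ∧ (2 : K) = 0)) ∧ l' ≠ 0 ∧
      ∀ x, h2 * x ^ 2 + h1 * x + h0 = l' * ((r' * x + s') ^ 2 -
        e * ((r' * x + s') * (ρ * x + σ))) + n' * (ρ * x + σ) ^ 2 := by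
    by_cases h2' : (2 : K) = 0
    · by_cases hm : m = 0
      · exact ⟨r, s, 0, l, n, hdet, Or.inl rfl, hl, fun x => by rw [hh, hm]; ring⟩
      · refine ⟨l / m * r, l / m * s, 1, m ^ 2 / l, n, ?_, Or.inr ⟨rfl, h2'⟩,
          div_ne_zero (pow_ne_zero _ hm) hl, fun x => ?_⟩
        · have : l / m * r * σ - l / m * s * ρ = l / m * (r * σ - s * ρ) := by ring
          rw [this]
          exact mul_ne_zero (div_ne_zero hl hm) hdet
        · rw [hh]
          have e1 : l / m * r * x + l / m * s = l / m * (r * x + s) := by ring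
          rw [e1]
          field_simp
          linear_combination m * (r * x + s) * (ρ * x + σ) * h2'
    · refine ⟨r + m / (2 * l) * ρ, s + m / (2 * l) * σ, 0, l, n - m ^ 2 / (4 * l), ?_,
        Or.inl rfl, hl, fun x => ?_⟩
      · have : (r + m / (2 * l) * ρ) * σ - (s + m / (2 * l) * σ) * ρ = r * σ - s * ρ := by ring
        rw [this]
        exact hdet
      · have e1 : (r + m / (2 * l) * ρ) * x + (s + m / (2 * l) * σ) =
            (r * x + s) + m / (2 * l) * (ρ * x + σ) := by ring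
        have h4 : (4 : K) ≠ 0 := by
          have : (4 : K) = 2 * 2 := by norm_num
          rw [this]
          exact mul_ne_zero h2' h2'
        rw [hh, e1]
        have e2 : m ^ 2 / (4 * l) = l * (m / (2 * l)) ^ 2 := by
          field_simp
          ring
        have e3 : m = 2 * l * (m / (2 * l)) := by
          rw [mul_div_cancel₀ _ (mul_ne_zero h2' hl)]
        rw [e2]
        generalize m / (2 * l) = w at e3
        rw [e3]
        ring
  refine ⟨-β * l' / α, (1 - β * n') / α, l', n', r', s', ρ, σ, e, ?_, hdet', he,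
    fun x => ⟨?_, hh' x⟩⟩
  · have : -β * l' / α * n' - (1 - β * n') / α * l' = -l' / α := by
      field_simp
      ring
    rw [this]
    exact div_ne_zero (neg_ne_zero.2 hl') hα
  · have h7 := hq x
    have h8 := hh' x
    apply mul_left_cancel₀ hα
    have eA : α * (-β * l' / α) = -β * l' := mul_div_cancel₀ _ hα
    have eB : α * ((1 - β * n') / α) = 1 - β * n' := mul_div_cancel₀ _ hα
    linear_combination h7 - β * h8 -
      ((r' * x + s') ^ 2 - e * ((r' * x + s') * (ρ * x + σ))) * eA - (ρ * x + σ) ^ 2 * eB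

/-- **Quadratic rational functions.** -/
theorem quad {g2 g1 g0 h2 h1 h0 : K}
    (hnd : ∀ x, ¬ (g2 * x ^ 2 + g1 * x + g0 = 0 ∧ h2 * x ^ 2 + h1 * x + h0 = 0))
    (hdeg : g2 ≠ 0 ∨ h2 ≠ 0) : Rep g2 g1 g0 h2 h1 h0 := by
  by_cases hA : h1 ^ 2 - 4 * h0 * h2 = 0
  · refine Rep.swap (quad1 (α := 1) (β := 0) one_ne_zero (fun x hx => hnd x ⟨hx.2, hx.1⟩)
      hdeg.symm ?_)
    linear_combination hA
  · obtain ⟨β, hβ⟩ := exists_quad_root (a := h1 ^ 2 - 4 * h0 * h2)
      (b := 2 * g1 * h1 - 4 * (g0 * h2 + h0 * g2)) (c := g1 ^ 2 - 4 * g0 * g2) hA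
    refine quad1 (α := 1) (β := β) one_ne_zero hnd hdeg ?_
    linear_combination hβ

end Pool.Agent.FDT
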