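import Pool.Agent.FDT.Core
import Pool.Agent.FDT.Quad

/-!
# The class of rational functions

Compositions of Moebius maps, rational functions of degree two, `x ^ l` with `l` prime, and
`x ^ p - x`, and their words of elementary steps.
-/

set_option autoImplicit false
set_option linter.unusedSectionVars false

open Finset Polynomial

namespace Pool.Agent.FDT

variable {K : Type*} [Field K] {p : ℕ} [Fact p.Prime] [CharP K p]

/-- the words of elementary steps for `g / h` -/
def Lst (p : ℕ) [Fact p.Prime] [CharP K p] (g h : K[X]) : Prop :=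
  ∃ (L : List (Stp K)) (e : ℕ), 0 < e ∧ ∀ f, 0 < f → e ∣ f → (∀ S ∈ L, Ok p f S) ∧
    ∀ x y, fr p f 1 y ≠ y → (Tr g h x y ↔ Ch p L x y)

/-- all elements are periodic -/
def Per1 (K : Type*) [Field K] (p : ℕ) : Prop := ∀ x : K, ∃ e, 0 < e ∧ x ^ p ^ e = x

theorem fix_of_dvd {x : K} {e f : ℕ} (h : x ^ p ^ e = x) (hf : e ∣ f) : fr p f 1 x = x := by
  obtain ⟨k, rfl⟩ := hf
  rw [fr_def, mul_one, pow_mul]
  exact pow_pow_eq h k

theorem exists_fix (H : Per1 K p) (x : K) : ∃ e, 0 < e ∧ ∀ f, e ∣ f → fr p f 1 x = x := by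
  obtain ⟨e, he, h⟩ := H x
  exact ⟨e, he, fun f hf => fix_of_dvd h hf⟩

theorem exists_fix_finset (H : Per1 K p) (s : Finset K) :
    ∃ e, 0 < e ∧ ∀ f, e ∣ f → ∀ x ∈ s, fr p f 1 x = x := by
  classical
  induction s using Finset.induction_on with
  | empty => exact ⟨1, one_pos, fun f _ x hx => absurd hx (notMem_empty x)⟩
  | insert a s _ ih =>
    obtain ⟨e, he, h⟩ := ih
    obtain ⟨e', he', h'⟩ := exists_fix H a
    refine ⟨e * e', Nat.mul_pos he he', fun f hf x hx => ?_⟩
    rcases mem_insert.1 hx with rfl | hx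
    · exact h' f ((dvd_mul_left _ _).trans hf)
    · exact h f ((dvd_mul_right _ _).trans hf) x hx

theorem exists_fix_poly (H : Per1 K p) (g : K[X]) :
    ∃ e, 0 < e ∧ ∀ f, e ∣ f → ∀ i, fr p f 1 (g.coeff i) = g.coeff i := by
  classical
  obtain ⟨e, he, h⟩ := exists_fix_finset H (g.support.image g.coeff)
  refine ⟨e, he, fun f hf i => ?_⟩
  by_cases hi : g.coeff i = 0
  · rw [hi, map_zero]
  · exact h f hf _ (mem_image_of_mem _ (mem_support_iff.2 hi))

theorem lst_mob (H : Per1 K p) {a b c d : K} (hdet : a * d - b * c ≠ 0) :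
    Lst p (C a * X + C b) (C c * X + C d) := by
  classical
  obtain ⟨e, he, h⟩ := exists_fix_finset H {a, b, c, d}
  refine ⟨[.mob a b c d], e, he, fun f _ hf => ⟨?_, ?_⟩⟩
  · intro S hS
    rw [List.mem_singleton.1 hS]
    exact ⟨h f hf a (by simp), h f hf b (by simp), h f hf c (by simp), h f hf d (by simp), hdet⟩
  · intro x y _
    constructor
    · rintro ⟨h1, h2⟩
      exact ⟨x, ⟨by simpa using h1, by simpa using h2⟩, rfl⟩
    · rintro ⟨z, h1, h2⟩
      rw [← show x = z from h2] at h1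
      exact ⟨by simpa using h1.1, by simpa using h1.2⟩

theorem lst_pow {l : ℕ} (hl : l.Prime) : Lst p (X ^ l : K[X]) 1 := by
  have hp := (Fact.out : p.Prime)
  by_cases hlp : l = p
  · refine ⟨[.frb], 1, one_pos, fun f _ _ => ⟨?_, ?_⟩⟩
    · intro S hS
      rw [List.mem_singleton.1 hS]
      trivial
    · intro x y _
      constructor
      · rintro ⟨h1, h2⟩
        have h3 : x ^ p = y := by simpa [hlp] using h2
        exact ⟨x, h3, rfl⟩
      · rintro ⟨z, h1, h2⟩
        rw [← show x = z from h2] at h1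
        have h3 : x ^ p = y := h1
        refine ⟨by simp, ?_⟩
        rw [hlp]
        simp [h3]
  · have hcop : Nat.Coprime p l := (Nat.coprime_primes hp hl).2 (Ne.symm hlp)
    refine ⟨[.pow l], l.totient, Nat.totient_pos.2 hl.pos, fun f _ hf => ⟨?_, ?_⟩⟩
    · intro S hS
      rw [List.mem_singleton.1 hS]
      refine ⟨hl, ?_, ?_⟩
      · intro h0
        rw [CharP.cast_eq_zero_iff K p] at h0
        exact hlp ((Nat.prime_dvd_prime_iff_eq hp hl).1 h0).symm
      · obtain ⟨k, rfl⟩ := hf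
        have h1 : p ^ (l.totient * k) ≡ 1 [MOD l] := by
          rw [pow_mul]
          simpa using (Nat.ModEq.pow_totient hcop).pow k
        exact (Nat.modEq_iff_dvd' (Nat.one_le_pow _ _ hp.pos)).1 h1.symm
    · intro x y _
      constructor
      · rintro ⟨h1, h2⟩
        have h3 : x ^ l = y := by simpa using h2
        exact ⟨x, h3, rfl⟩
      · rintro ⟨z, h1, h2⟩
        rw [← show x = z from h2] at h1
        have h3 : x ^ l = y := h1
        exact ⟨by simp, by simp [h3]⟩

theorem lst_art : Lst p (X ^ p - X : K[X]) 1 := by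
  refine ⟨[.art], 1, one_pos, fun f _ _ => ⟨?_, ?_⟩⟩
  · intro S hS
    rw [List.mem_singleton.1 hS]
    trivial
  · intro x y _
    constructor
    · rintro ⟨h1, h2⟩
      have h3 : x ^ p - x = y := by simpa using h2
      exact ⟨x, h3, rfl⟩
    · rintro ⟨z, h1, h2⟩
      rw [← show x = z from h2] at h1
      have h3 : x ^ p - x = y := h1
      exact ⟨by simp, by simp [h3]⟩

/-- Composition. -/
theorem lst_comp (H : Per1 K p) {g h u v : K[X]} (hgh : Lst p g h) (huv : Lst p u v) {m : ℕ}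
    (hg : g.natDegree ≤ m) (hh : h.natDegree ≤ m) : Lst p (hsub u v g m) (hsub u v h m) := by
  obtain ⟨L, e, he, hL⟩ := hgh
  obtain ⟨L', e', he', hL'⟩ := huv
  obtain ⟨e₁, he₁, h₁⟩ := exists_fix_poly H g
  obtain ⟨e₂, he₂, h₂⟩ := exists_fix_poly H h
  refine ⟨L ++ L', e * e' * (e₁ * e₂), Nat.mul_pos (Nat.mul_pos he he') (Nat.mul_pos he₁ he₂),
    fun f hf hd => ?_⟩
  have d1 : e ∣ f := ((dvd_mul_right e e').trans (dvd_mul_right _ _)).trans hd
  have d2 : e' ∣ f := ((dvd_mul_left e' e).trans (dvd_mul_right _ _)).trans hd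
  have d3 : e₁ ∣ f := ((dvd_mul_right e₁ e₂).trans (dvd_mul_left _ _)).trans hd
  have d4 : e₂ ∣ f := ((dvd_mul_left e₂ e₁).trans (dvd_mul_left _ _)).trans hd
  obtain ⟨a1, a2⟩ := hL f hf d1
  obtain ⟨b1, b2⟩ := hL' f hf d2
  refine ⟨fun S hS => (List.mem_append.1 hS).elim (a1 S) (b1 S), fun x y hy => ?_⟩
  rw [ch_append]
  by_cases hv : v.eval x = 0
  · constructor
    · rintro ⟨h3, h4⟩
      exfalso
      rw [hsub_eval_zero hv] at h3
      rw [hsub_eval_zero hv, hsub_eval_zero hv, ← mul_assoc] at h4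
      have h5 : g.coeff m = y * h.coeff m :=
        mul_right_cancel₀ (right_ne_zero_of_mul h3) h4
      apply hy
      rw [(eq_div_iff (left_ne_zero_of_mul h3)).2 h5.symm, map_div₀, h₁ f d3, h₂ f d4]
    · rintro ⟨z, h3, h4⟩
      exact (((b2 x z (ch_clean a1 h3 hy)).2 h4).1 hv).elim
  · have hu : u.eval x = u.eval x / v.eval x * v.eval x := (div_mul_cancel₀ _ hv).symm
    have hv' : (v.eval x) ^ m ≠ 0 := pow_ne_zero _ hv
    have key : Tr (hsub u v g m) (hsub u v h m) x y ↔ Tr g h (u.eval x / v.eval x) y := by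
      rw [Tr, Tr, hsub_eval hg hu, hsub_eval hh hu]
      constructor
      · rintro ⟨h3, h4⟩
        refine ⟨right_ne_zero_of_mul h3, mul_left_cancel₀ hv' ?_⟩
        linear_combination h4
      · rintro ⟨h3, h4⟩
        refine ⟨mul_ne_zero hv' h3, ?_⟩
        rw [h4]
        ring
    rw [key, a2 _ y hy]
    constructor
    · intro h3
      exact ⟨_, h3, (b2 x _ (ch_clean a1 h3 hy)).1 ⟨hv, hu⟩⟩
    · rintro ⟨z, h3, h4⟩
      have h5 := (b2 x z (ch_clean a1 h3 hy)).2 h4
      rwa [← tr_fun (⟨hv, hu⟩ : Tr u v x _) h5] at h3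

/-- The quadratic maps. -/
theorem lst_quad [IsAlgClosed K] (H : Per1 K p) {g h : K[X]} (hc : IsCoprime g h)
    (hd : max g.natDegree h.natDegree = 2) : Lst p g h := by
  classical
  have hg2 : g.natDegree ≤ 2 := hd ▸ le_max_left _ _
  have hh2 : h.natDegree ≤ 2 := hd ▸ le_max_right _ _
  have hge : ∀ x, g.eval x = g.coeff 2 * x ^ 2 + g.coeff 1 * x + g.coeff 0 := fun x => by
    rw [eval_eq_sum_range' (Nat.lt_succ_of_le hg2)]
    simp [sum_range_succ]
    ring
  have hhe : ∀ x, h.eval x = h.coeff 2 * x ^ 2 + h.coeff 1 * x + h.coeff 0 := fun x => by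
    rw [eval_eq_sum_range' (Nat.lt_succ_of_le hh2)]
    simp [sum_range_succ]
    ring
  have hnd : ∀ x, ¬ (g.coeff 2 * x ^ 2 + g.coeff 1 * x + g.coeff 0 = 0 ∧
      h.coeff 2 * x ^ 2 + h.coeff 1 * x + h.coeff 0 = 0) := by
    rintro x ⟨h1, h2⟩
    rw [← hge] at h1
    rw [← hhe] at h2
    obtain ⟨a, b, hab⟩ := hc
    have h3 := congrArg (fun P : K[X] => P.eval x) hab
    simp only [eval_add, eval_mul, eval_one, h1, h2, mul_zero, add_zero] at h3
    exact zero_ne_one h3
  have hdeg : g.coeff 2 ≠ 0 ∨ h.coeff 2 ≠ 0 := by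
    rcases max_choice g.natDegree h.natDegree with h1 | h1
    · left
      rw [h1] at hd
      rw [← hd]
      exact leadingCoeff_ne_zero.2 fun h0 => by rw [h0, natDegree_zero] at hd; omega
    · right
      rw [h1] at hd
      rw [← hd]
      exact leadingCoeff_ne_zero.2 fun h0 => by rw [h0, natDegree_zero] at hd; omega
  obtain ⟨a, b, c, d, r, s, t, u, ε, hdet, hdet', hε, hrep⟩ := quad hnd hdeg
  obtain ⟨e, he, hfix⟩ := exists_fix_finset H {a, b, c, d, r, s, t, u}
  -- the middle step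
  obtain ⟨S, hSok, hSrel⟩ : ∃ S : Stp K, (∀ f, 0 < f → Ok p f S) ∧
      ∀ w z, Rel p S w z ↔ w ^ 2 - ε * w = z := by
    have hp := (Fact.out : p.Prime)
    rcases hε with h0 | ⟨h1, h2⟩
    · by_cases hp2 : p = 2
      · refine ⟨.frb, fun _ _ => trivial, fun w z => ?_⟩
        rw [h0, zero_mul, sub_zero, ← hp2]
        rfl
      · refine ⟨.pow 2, fun f _ => ⟨Nat.prime_two, ?_, ?_⟩, fun w z => ?_⟩
        · intro h3
          rw [CharP.cast_eq_zero_iff K p] at h3
          exact hp2 ((Nat.prime_dvd_prime_iff_eq hp Nat.prime_two).1 h3)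
        · have hodd : Odd p := hp.odd_of_ne_two hp2
          have h3 : Odd (p ^ f) := hodd.pow
          obtain ⟨k, hk⟩ := h3
          exact ⟨k, by omega⟩
        · rw [h0, zero_mul, sub_zero]
          rfl
    · have hp2 : p = 2 := by
        have h3 : ((2 : ℕ) : K) = 0 := by exact_mod_cast h2
        rw [CharP.cast_eq_zero_iff K p] at h3
        exact (Nat.prime_dvd_prime_iff_eq hp Nat.prime_two).1 h3
      refine ⟨.art, fun _ _ => trivial, fun w z => ?_⟩
      rw [h1, one_mul, ← hp2]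
      rfl
  refine ⟨[.mob a b c d, S, .mob r s t u], e, he, fun f hf hef => ⟨?_, ?_⟩⟩
  · intro S' hS'
    simp only [List.mem_cons, List.not_mem_nil, or_false] at hS'
    rcases hS' with rfl | rfl | rfl
    · exact ⟨hfix f hef a (by simp), hfix f hef b (by simp), hfix f hef c (by simp),
        hfix f hef d (by simp), hdet⟩
    · exact hSok f hf
    · exact ⟨hfix f hef r (by simp), hfix f hef s (by simp), hfix f hef t (by simp),
        hfix f hef u (by simp), hdet'⟩
  · intro x y hy
    have hx := hrep x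
    rw [← hge, ← hhe] at hx
    obtain ⟨hgx, hhx⟩ := hx
    constructor
    · rintro ⟨h1, h2⟩
      have hT : t * x + u ≠ 0 := fun hT => by
        rw [hT] at hgx hhx
        have e1 : g.eval x = a * (r * x + s) ^ 2 := by rw [hgx]; ring
        have e2 : h.eval x = c * (r * x + s) ^ 2 := by rw [hhx]; ring
        rw [e1, e2, ← mul_assoc] at h2
        rw [e2] at h1
        have h3 : a = y * c := mul_right_cancel₀ (right_ne_zero_of_mul h1) h2
        apply hy
        rw [(eq_div_iff (left_ne_zero_of_mul h1)).2 h3.symm, map_div₀,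
          hfix f hef a (by simp), hfix f hef c (by simp)]
      set w := (r * x + s) / (t * x + u) with hw
      have hw' : r * x + s = w * (t * x + u) := (div_mul_cancel₀ _ hT).symm
      have e1 : g.eval x = (a * (w ^ 2 - ε * w) + b) * (t * x + u) ^ 2 := by
        rw [hgx, hw']
        ring
      have e2 : h.eval x = (c * (w ^ 2 - ε * w) + d) * (t * x + u) ^ 2 := by
        rw [hhx, hw']
        ring
      rw [e2] at h1
      rw [e1, e2, ← mul_assoc] at h2
      exact ⟨w ^ 2 - ε * w, ⟨left_ne_zero_of_mul h1, mul_right_cancel₀ (pow_ne_zero _ hT) h2⟩,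
        w, (hSrel _ _).2 rfl, x, ⟨hT, hw'⟩, rfl⟩
    · rintro ⟨z, ⟨h1, h2⟩, w, h3, x', ⟨hT, hw'⟩, h5⟩
      rw [← show x = x' from h5] at hT hw'
      have h3' := (hSrel _ _).1 h3
      have e1 : g.eval x = (a * (w ^ 2 - ε * w) + b) * (t * x + u) ^ 2 := by
        rw [hgx, hw']
        ring
      have e2 : h.eval x = (c * (w ^ 2 - ε * w) + d) * (t * x + u) ^ 2 := by
        rw [hhx, hw']
        ring
      rw [h3'] at e1 e2
      refine ⟨?_, ?_⟩
      · rw [e2]
        exact mul_ne_zero h1 (pow_ne_zero _ hT)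
      · rw [e1, e2, h2]
        ring

theorem lst_cyc [IsAlgClosed K] (H : Per1 K p) {g h : K[X]} (hR : Cyc p g h) : Lst p g h := by
  induction hR with
  | mob a b c d hdet => exact lst_mob H hdet
  | quad g h hc hd => exact lst_quad H hc hd
  | pow l hl => exact lst_pow hl
  | art => exact lst_art
  | comp g h u v _ _ ih1 ih2 => exact lst_comp H ih1 ih2 (le_max_left _ _) (le_max_right _ _)

end Pool.Agent.FDT
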