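import Pool.Agent.FDT.Fin

/-!
# The core argument

Iterated homogenised substitution, its roots, and the dichotomy for the degrees and the numbers of
the irreducible factors.
-/

set_option autoImplicit false
set_option linter.unusedSectionVars false

open Finset Polynomial

namespace Pool.Agent.FDT

theorem hsub_map {R S : Type*} [CommRing R] [CommRing S] (φ : R →+* S) (u v g : R[X]) (m : ℕ) :
    (hsub u v g m).map φ = hsub (u.map φ) (v.map φ) (g.map φ) m := by
  simp [hsub, Polynomial.map_sum]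

theorem hsub_eval {K : Type*} [Field K] {u v g : K[X]} {m : ℕ} (hm : g.natDegree ≤ m) {x y : K}
    (hu : u.eval x = y * v.eval x) :
    (hsub u v g m).eval x = (v.eval x) ^ m * g.eval y := by
  rw [hsub, eval_finsetSum, eval_eq_sum_range' (Nat.lt_succ_of_le hm), mul_sum]
  refine sum_congr rfl fun i hi => ?_
  have hi' : i ≤ m := Nat.lt_succ_iff.1 (mem_range.1 hi)
  rw [eval_mul, eval_mul, eval_C, eval_pow, eval_pow, hu, mul_pow]
  have : (v.eval x) ^ m = (v.eval x) ^ i * (v.eval x) ^ (m - i) := by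
    rw [← pow_add, Nat.add_sub_cancel' hi']
  rw [this]
  ring

theorem hsub_eval_zero {K : Type*} [Field K] {u v g : K[X]} {m : ℕ} {x : K}
    (hv : v.eval x = 0) : (hsub u v g m).eval x = g.coeff m * (u.eval x) ^ m := by
  rw [hsub, eval_finsetSum, sum_range_succ, sum_eq_zero, zero_add]
  · simp
  · intro i hi
    have : m - i ≠ 0 := by
      have := mem_range.1 hi
      omega
    rw [eval_mul, eval_pow, hv, zero_pow this, mul_zero]

/-- `g / h` maps `x` to `y` -/
def Tr {K : Type*} [Field K] (g h : K[X]) (x y : K) : Prop :=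
  h.eval x ≠ 0 ∧ g.eval x = y * h.eval x

theorem tr_fun {K : Type*} [Field K] {g h : K[X]} {x y y' : K} (h1 : Tr g h x y)
    (h2 : Tr g h x y') : y = y' :=
  mul_right_cancel₀ h1.1 (h1.2.symm.trans h2.2)

section Core

variable {F : Type*} [Field F] [Fintype F] {K : Type*} [Field K] [Algebra F K]
  [IsAlgClosed K] [Normal F K]

theorem root_iff {g h f : F[X]} (hc : IsCoprime g h) (hf : f ≠ 0) (m : ℕ)
    (hm : m = f.natDegree) (x : K) :
    aeval x (hsub g h f m) = 0 ↔ ∃ y, Tr (g.map (algebraMap F K)) (h.map (algebraMap F K)) x y ∧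
      aeval y f = 0 := by
  rw [← eval_map_algebraMap, hsub_map]
  by_cases hv : (h.map (algebraMap F K)).eval x = 0
  · rw [hsub_eval_zero hv]
    constructor
    · intro h0
      exfalso
      have h1 : (f.map (algebraMap F K)).coeff m ≠ 0 := by
        rw [coeff_map, hm]
        exact (_root_.map_ne_zero _).2 (leadingCoeff_ne_zero.2 hf)
      have h2 : (g.map (algebraMap F K)).eval x ≠ 0 := fun h2 => by
        obtain ⟨a, b, hab⟩ := hc
        have h3 := congrArg (fun P : F[X] => (P.map (algebraMap F K)).eval x) hab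
        simp only [Polynomial.map_add, Polynomial.map_mul, Polynomial.map_one, eval_add,
          eval_mul, eval_one, h2, hv, mul_zero, add_zero] at h3
        exact zero_ne_one h3
      exact mul_ne_zero h1 (pow_ne_zero _ h2) h0
    · rintro ⟨y, h1, -⟩
      exact (h1.1 hv).elim
  · have hu : (g.map (algebraMap F K)).eval x = (g.map (algebraMap F K)).eval x /
        (h.map (algebraMap F K)).eval x * (h.map (algebraMap F K)).eval x :=
      (div_mul_cancel₀ _ hv).symm
    rw [hsub_eval (by rw [natDegree_map, hm]) hu, mul_eq_zero,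
      or_iff_right (pow_ne_zero _ hv), eval_map_algebraMap]
    constructor
    · exact fun h1 => ⟨_, ⟨hv, hu⟩, h1⟩
    · rintro ⟨y, h1, h2⟩
      rwa [← tr_fun h1 ⟨hv, hu⟩]

/-! ### Trivial words -/

variable {p : ℕ} [Fact p.Prime] [CharP K p] {f r k : ℕ}

theorem triv_fwd {S : Stp K} (hS : Ok p f S) (hT : Triv S) {x : K} (hx : fr p f 1 x ≠ x) :
    ∃ z, fr p f 1 z ≠ z ∧ Rel p S x z := by
  have key : ∀ z, Rel p S x z → fr p f 1 z ≠ z := fun z hz h => by
    have h1 := rel_fr hS hz 1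
    rw [h] at h1
    exact hx (rel_inj hS hT h1 hz)
  have : ∃ z, Rel p S x z := by
    cases S with
    | mob a b c d =>
      obtain ⟨ha, hb, hc, hd, hdet⟩ := hS
      have h1 : c * x + d ≠ 0 := fun h1 => by
        by_cases h2 : c = 0
        · rw [h2, zero_mul, zero_add] at h1
          apply hdet
          rw [h2, h1]
          ring
        · apply hx
          have h3 : x = -d / c := by
            rw [eq_div_iff h2]
            linear_combination h1
          rw [h3, map_div₀, map_neg, hc, hd]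
      exact ⟨(a * x + b) / (c * x + d), h1, (div_mul_cancel₀ _ h1).symm⟩
    | frb => exact ⟨x ^ p, rfl⟩
    | pow l => exact hT.elim
    | art => exact hT.elim
  obtain ⟨z, hz⟩ := this
  exact ⟨z, key z hz, hz⟩

theorem triv_ch_fwd {W : List (Stp K)} (hW : ∀ S ∈ W, Ok p f S) (hT : ∀ S ∈ W, Triv S) {x : K}
    (hx : fr p f 1 x ≠ x) : ∃ z, fr p f 1 z ≠ z ∧ Ch p W x z := by
  induction W with
  | nil => exact ⟨x, hx, rfl⟩
  | cons S W ih =>
    obtain ⟨z, hz, h1⟩ := ih (fun S' h => hW S' (List.mem_cons_of_mem _ h))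
      (fun S' h => hT S' (List.mem_cons_of_mem _ h))
    obtain ⟨y, hy, h2⟩ := triv_fwd (hW S List.mem_cons_self) (hT S List.mem_cons_self) hz
    exact ⟨y, hy, z, h2, h1⟩

theorem triv_ch_inj {W : List (Stp K)} (hW : ∀ S ∈ W, Ok p f S) (hT : ∀ S ∈ W, Triv S)
    {x x' y : K} (h : Ch p W x y) (h' : Ch p W x' y) : x = x' := by
  induction W generalizing y with
  | nil => exact Eq.trans h (Eq.symm h')
  | cons S W ih =>
    obtain ⟨z, h1, h2⟩ := h
    obtain ⟨z', h1', h2'⟩ := h'
    have h3 := rel_inj (hW S List.mem_cons_self) (hT S List.mem_cons_self) h1 h1'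
    rw [← h3] at h2'
    exact ih (fun S' h => hW S' (List.mem_cons_of_mem _ h))
      (fun S' h => hT S' (List.mem_cons_of_mem _ h)) h2 h2'

theorem two_le_DG {L : List (Stp K)} (hL : ∀ S ∈ L, Ok p f S) (hT : ∃ S ∈ L, ¬ Triv S) :
    2 ≤ DG p L := by
  have h1 : ∀ S : Stp K, Ok p f S → 1 ≤ dg p S ∧ (¬ Triv S → 2 ≤ dg p S) := by
    intro S hS
    cases S with
    | mob a b c d => exact ⟨le_rfl, fun h => (h trivial).elim⟩
    | frb => exact ⟨le_rfl, fun h => (h trivial).elim⟩
    | pow l => exact ⟨hS.1.pos, fun _ => hS.1.two_le⟩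
    | art => exact ⟨(Fact.out : p.Prime).pos, fun _ => (Fact.out : p.Prime).two_le⟩
  have h2 : ∀ W : List (Stp K), (∀ S ∈ W, Ok p f S) → 1 ≤ DG p W := by
    intro W hW
    exact List.one_le_prod (fun n hn => by
      obtain ⟨S, hS, rfl⟩ := List.mem_map.1 hn
      exact (h1 S (hW S hS)).1)
  obtain ⟨S, hS, hST⟩ := hT
  obtain ⟨A, B, rfl⟩ := List.append_of_mem hS
  have e : DG p (A ++ S :: B) = DG p A * (dg p S * DG p B) := by
    simp [DG]
  have h3 := h2 A fun S' h => hL S' (List.mem_append_left _ h)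
  have h4 := h2 B fun S' h => hL S' (List.mem_append_right _ (List.mem_cons_of_mem _ h))
  have h5 := (h1 S (hL S hS)).2 hST
  rw [e]
  calc 2 = 1 * (2 * 1) := rfl
    _ ≤ _ := Nat.mul_le_mul h3 (Nat.mul_le_mul h5 h4)

theorem eq_zero_of_clean (hf : 0 < f) {P : F[X]}
    (h : ∀ y : K, fr p f 1 y ≠ y → aeval y P = 0) : P = 0 := by
  by_contra hP
  have : Infinite K := IsAlgClosed.instInfinite
  refine Set.infinite_univ (α := K) (((fixed_finite (K := K) (p := p) hf).union
    (rts K P).finite_toSet).subset fun y _ => ?_)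
  by_cases hy : fr p f 1 y = y
  · exact Or.inl hy
  · exact Or.inr ((mem_rts hP).2 (h y hy))

/-! ### The main argument -/

/-- the data -/
structure Dat (g h : F[X]) (p : ℕ) [Fact p.Prime] [CharP K p] (f : ℕ) (L : List (Stp K))
    (π : K → K) (m : ℕ) : Prop where
  cop : IsCoprime g h
  ok : ∀ S ∈ L, Ok p f S
  pi : PiD p f π m
  comp : ∀ x z, fr p f 1 z ≠ z → Ch p L x z →
    Tr (g.map (algebraMap F K)) (h.map (algebraMap F K)) (π x) (π z)

theorem itr_ne {g h f₀ : F[X]} {L : List (Stp K)} {π : K → K} {m : ℕ}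
    (D : Dat g h p f L π m) (hf : 0 < f) (hf₀ : f₀ ≠ 0) (n : ℕ) : itr g h f₀ n ≠ 0 := by
  induction n with
  | zero => exact hf₀
  | succ n ih =>
    intro h0
    apply ih
    refine eq_zero_of_clean (K := K) (p := p) hf fun y hy => ?_
    obtain ⟨z, hz, rfl⟩ := D.pi.surj y hy
    obtain ⟨x, hx⟩ := ch_exists D.ok hz
    have h1 : aeval (π x) (itr g h f₀ (n + 1)) = 0 := by rw [h0, map_zero]
    obtain ⟨y', h2, h3⟩ := (root_iff D.cop ih _ rfl _).1 h1
    rwa [← tr_fun h2 (D.comp x z hz hx)]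

theorem itr_root {g h f₀ : F[X]} {L : List (Stp K)} {π : K → K} {m : ℕ}
    (D : Dat g h p f L π m) (hf : 0 < f) (hf₀ : f₀ ≠ 0) (n : ℕ) (x : K) :
    aeval x (itr g h f₀ (n + 1)) = 0 ↔
      ∃ y, Tr (g.map (algebraMap F K)) (h.map (algebraMap F K)) x y ∧
      aeval y (itr g h f₀ n) = 0 :=
  root_iff D.cop (itr_ne D hf hf₀ n) _ rfl x

/-- Going up. -/
theorem root_up {g h f₀ : F[X]} {L : List (Stp K)} {π : K → K} {m : ℕ}
    (D : Dat g h p f L π m) (hf : 0 < f) (hf₀ : f₀ ≠ 0) {j : ℕ} {z : K}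
    (hz : fr p f 1 z ≠ z) (hr : aeval (π z) (itr g h f₀ j) = 0) (n : ℕ) {x : K}
    (hx : Ch p (pw L n) x z) : aeval (π x) (itr g h f₀ (j + n)) = 0 := by
  induction n generalizing x with
  | zero => rw [show x = z from hx]; exact hr
  | succ n ih =>
    rw [pw_add, pw_one, ch_append] at hx
    obtain ⟨w, h1, h2⟩ := hx
    have hw := ch_clean (fun S hS => D.ok S (mem_pw hS)) h1 hz
    exact (itr_root D hf hf₀ _ _).2 ⟨π w, D.comp x w hw h2, ih h1⟩

/-- Going down. -/
theorem root_down {g h f₀ : F[X]} {L : List (Stp K)} {π : K → K} {m : ℕ}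
    (D : Dat g h p f L π m) (hf : 0 < f) (hf₀ : f₀ ≠ 0) {z : K}
    (hz : fr p f 1 z ≠ z) (n : ℕ) {x : K} (hr : aeval (π x) (itr g h f₀ n) = 0)
    (hx : Ch p (pw L n) x z) : aeval (π z) f₀ = 0 := by
  induction n generalizing x with
  | zero => rw [← show x = z from hx]; exact hr
  | succ n ih =>
    rw [pw_add, pw_one, ch_append] at hx
    obtain ⟨w, h1, h2⟩ := hx
    have hw := ch_clean (fun S hS => D.ok S (mem_pw hS)) h1 hz
    obtain ⟨y, h3, h4⟩ := (itr_root D hf hf₀ _ _).1 hr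
    rw [tr_fun h3 (D.comp x w hw h2)] at h4
    exact ih h4 h1

/-- The clean part of the root sets, when the word is trivial. -/
theorem card_triv {g h f₀ : F[X]} {L : List (Stp K)} {π : K → K} {m : ℕ}
    (D : Dat g h p f L π m) (hf : 0 < f) (hf₀ : f₀ ≠ 0) (hT : ∀ S ∈ L, Triv S) (n : ℕ)
    (s : Finset K) (hs : ∀ w ∈ s, fr p f 1 w ≠ w ∧ aeval w (itr g h f₀ n) = 0) :
    s.card ≤ m * (rts K f₀).card := by
  classical
  have h1 : ∀ w ∈ s, ∃ z x, fr p f 1 z ≠ z ∧ π x = w ∧ Ch p (pw L n) x z := fun w hw => by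
    obtain ⟨x, hx, rfl⟩ := D.pi.surj w (hs w hw).1
    obtain ⟨z, hz, h2⟩ := triv_ch_fwd (W := pw L n) (fun S hS => D.ok S (mem_pw hS))
      (fun S hS => hT S (mem_pw hS)) hx
    exact ⟨z, x, hz, rfl, h2⟩
  choose! Z X h2 h3 h4 using h1
  have h5 : s.card = (s.image Z).card := by
    refine (card_image_of_injOn fun w hw w' hw' he => ?_).symm
    have h6 := h4 w hw
    rw [show Z w = Z w' from he] at h6
    have h7 := triv_ch_inj (fun S hS => D.ok S (mem_pw hS)) (fun S hS => hT S (mem_pw hS)) h6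
      (h4 w' hw')
    rw [← h3 w hw, h7, h3 w' hw']
  rw [h5]
  refine card_le_mul_card_image_of_maps_to (f := π) (t := rts K f₀) ?_ m fun b _ => ?_
  · intro z hz
    obtain ⟨w, hw, rfl⟩ := mem_image.1 hz
    refine (mem_rts hf₀).2 (root_down D hf hf₀ (h2 w hw) n ?_ (h4 w hw))
    rw [h3 w hw]
    exact (hs w hw).2
  · refine D.pi.fib b _ fun z hz => ?_
    obtain ⟨hz1, hz2⟩ := mem_filter.1 hz
    obtain ⟨w, hw, rfl⟩ := mem_image.1 hz1
    exact ⟨h2 w hw, hz2⟩

/-- **The main argument.** -/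
theorem core (hF : Fintype.card F = p ^ r) (hfr : f = r * k) (hk : 0 < k)
    {g h f₀ : F[X]} {L : List (Stp K)} {π : K → K} {m : ℕ} (D : Dat g h p f L π m)
    (hf : 0 < f) (hf₀ : f₀ ≠ 0)
    (hδ : ∀ B : ℕ, ∃ n, B < ∑ Q ∈ fac (itr g h f₀ n), Q.natDegree) :
    (∃ j, ∀ n, 2 ^ n ≤ m * (fac (itr g h f₀ (j + n))).sup natDegree) ∨
    ∃ j n₀, 0 < n₀ ∧ ∀ n, 2 ^ (n / n₀) ≤ m * k * (fac (itr g h f₀ (j + n))).card := by
  classical
  have H : AllPer K p f := allPer hF hfr
  have hfin := fixed_finite (K := K) (p := p) hf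
  -- there is a clean root
  have h1 : ∃ j, ∃ α : K, fr p f 1 α ≠ α ∧ aeval α (itr g h f₀ j) = 0 := by
    by_contra hcon
    push Not at hcon
    obtain ⟨n, hn⟩ := hδ (hfin.toFinset.card * hfin.toFinset.card)
    have h2 := sum_natDegree_le (K := K) (itr_ne D hf hf₀ n)
    have h3 : (rts K (itr g h f₀ n)).card ≤ hfin.toFinset.card := card_le_card fun x hx => by
      rw [hfin.mem_toFinset]
      by_contra hx'
      exact hcon n x hx' ((mem_rts (itr_ne D hf hf₀ n)).1 hx)
    exact absurd (hn.trans_le (h2.trans (Nat.mul_le_mul h3 h3))) (lt_irrefl _)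
  -- the word is not trivial
  have h2 : ∃ S ∈ L, ¬ Triv S := by
    by_contra hcon
    push Not at hcon
    set B := hfin.toFinset.card + m * (rts K f₀).card with hB
    obtain ⟨n, hn⟩ := hδ (B * B)
    have h2 := sum_natDegree_le (K := K) (itr_ne D hf hf₀ n)
    have h3 : (rts K (itr g h f₀ n)).card ≤ B := by
      rw [← card_filter_add_card_filter_not (fun x => fr p f 1 x = x)]
      refine Nat.add_le_add (card_le_card fun x hx => ?_)
        (card_triv D hf hf₀ hcon n _ fun w hw => ?_)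
      · rw [hfin.mem_toFinset]
        exact (mem_filter.1 hx).2
      · exact ⟨(mem_filter.1 hw).2, (mem_rts (itr_ne D hf hf₀ n)).1 (mem_filter.1 hw).1⟩
    exact absurd (hn.trans_le (h2.trans (Nat.mul_le_mul h3 h3))) (lt_irrefl _)
  have h3 := two_le_DG D.ok h2
  obtain ⟨j, α, hα, hroot⟩ := h1
  obtain ⟨β, hβ, rfl⟩ := D.pi.surj α hα
  rcases dich hf H D.ok hβ with ⟨j', D', hD', hc⟩ | ⟨n₀, hn₀, hc⟩
  · left
    refine ⟨j + j', fun n => ?_⟩
    obtain ⟨x, hx1, hx2⟩ := hc n
    have h4 := root_up D hf hf₀ hβ hroot _ hx1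
    have h5 : fr p f 1 x ≠ x := ch_clean (fun S hS => D.ok S (mem_pw hS)) hx1 hβ
    have h6 := per_le_pi H D.pi h5
    rw [← add_assoc] at h4
    have h7 := minpoly_mem_fac (itr_ne D hf hf₀ _) h4
    have h8 : per p f (π x) ≤ (minpoly F (π x)).natDegree :=
      Nat.le_of_dvd (minpoly.natDegree_pos (Algebra.IsIntegral.isIntegral _)) (per_le hF hfr _)
    have h9 : (minpoly F (π x)).natDegree ≤ (fac (itr g h f₀ (j + j' + n))).sup natDegree :=
      le_sup (f := natDegree) h7
    calc 2 ^ n ≤ 1 * DG p L ^ n := by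
          rw [one_mul]
          exact Nat.pow_le_pow_left h3 n
      _ ≤ D' * DG p L ^ n := Nat.mul_le_mul_right _ hD'
      _ = per p f x := hx2.symm
      _ ≤ m * per p f (π x) := h6
      _ ≤ _ := Nat.mul_le_mul_left _ (h8.trans h9)
  · right
    refine ⟨j, n₀, hn₀, fun n => ?_⟩
    obtain ⟨s, hs, hF1, hF2⟩ := hc n
    rw [← hs]
    exact card_le_fac hF hfr hk D.pi (itr_ne D hf hf₀ _)
      (fun x hx => ch_clean (fun S hS => D.ok S (mem_pw hS)) (hF1 x hx) hβ) hF2
      (fun x hx => root_up D hf hf₀ hβ hroot _ (hF1 x hx))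

end Core

end Pool.Agent.FDT
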