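import Mathlib

/-!
# Definitions used in the statement

Homogenised substitution, the iterates `f_R^(n)`, the distinct irreducible factors, and the class
of rational functions of the theorem.  A rational function `g / h` is given by the pair `(g, h)`.
-/

set_option autoImplicit false

open Finset Polynomial

namespace Pool.Agent.FDT

/-- `v ^ m * g (u / v)`, written as a polynomial, for `g` of degree at most `m`. -/
noncomputable def hsub {R : Type*} [CommRing R] (u v g : R[X]) (m : ℕ) : R[X] :=
  ∑ i ∈ range (m + 1), C (g.coeff i) * u ^ i * v ^ (m - i)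

/-- The iterates `f_R^(n)`, for `R = g / h`: `f_R^(0) = f` and
`f_R^(n + 1) = h ^ (deg P) * P (g / h)` with `P = f_R^(n)`. -/
noncomputable def itr {R : Type*} [CommRing R] (g h f : R[X]) : ℕ → R[X]
  | 0 => f
  | n + 1 => hsub g h (itr g h f n) (itr g h f n).natDegree

open Classical in
/-- The distinct monic irreducible factors. -/
noncomputable def fac {F : Type*} [Field F] (P : F[X]) : Finset F[X] :=
  (UniqueFactorizationMonoid.normalizedFactors P).toFinset

/-- The smallest class of rational functions `g / h` over `K` (of characteristic `p`) which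
contains the Moebius maps, all rational functions of degree two, the maps `x ^ l` with `l` prime,
and `x ^ p - x`, and which is closed under composition.  In the last case `(u, v)` is the inner
map and `(g, h)` is the outer one. -/
inductive Cyc (p : ℕ) {K : Type*} [Field K] : K[X] → K[X] → Prop
  | mob (a b c d : K) (hdet : a * d - b * c ≠ 0) :
      Cyc p (C a * X + C b) (C c * X + C d)
  | quad (g h : K[X]) (hc : IsCoprime g h) (hd : max g.natDegree h.natDegree = 2) : Cyc p g h
  | pow (l : ℕ) (hl : l.Prime) : Cyc p (X ^ l) 1
  | art : Cyc p (X ^ p - X) 1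
  | comp (g h u v : K[X]) (hgh : Cyc p g h) (huv : Cyc p u v) :
      Cyc p (hsub u v g (max g.natDegree h.natDegree)) (hsub u v h (max g.natDegree h.natDegree))

/-- The rational functions `R = g / h` for which there are a nonconstant rational function
`π = a / b` and a map `S = u / v` of the class `Cyc` with `R ∘ π = π ∘ S`. -/
def QCyc (p : ℕ) {K : Type*} [Field K] (g h : K[X]) : Prop :=
  ∃ a b u v : K[X], IsCoprime a b ∧ 1 ≤ max a.natDegree b.natDegree ∧ Cyc p u v ∧
    hsub a b g (max g.natDegree h.natDegree) * hsub u v b (max a.natDegree b.natDegree) =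
    hsub a b h (max g.natDegree h.natDegree) * hsub u v a (max a.natDegree b.natDegree)

/-- `δ(n)`: the degree of the product of the distinct irreducible factors of `f_R^(n)`. -/
noncomputable def dlt {F : Type*} [Field F] (g h f : F[X]) (n : ℕ) : ℕ :=
  ∑ Q ∈ fac (itr g h f n), Q.natDegree

/-- `M(n)`: the largest degree of an irreducible factor of `f_R^(n)`. -/
noncomputable def mx {F : Type*} [Field F] (g h f : F[X]) (n : ℕ) : ℕ :=
  (fac (itr g h f n)).sup natDegree

/-- `N(n)`: the number of distinct irreducible factors of `f_R^(n)`. -/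
noncomputable def nb {F : Type*} [Field F] (g h f : F[X]) (n : ℕ) : ℕ :=
  (fac (itr g h f n)).card

/-- Numerator and denominator of the iterate `R^(n)`, for `R = g / h`:
`R^(0) = X` and `R^(n + 1) = R^(n) ∘ R`. -/
noncomputable def rit {F : Type*} [Field F] (g h : F[X]) : ℕ → F[X] × F[X]
  | 0 => (X, 1)
  | n + 1 =>
    (hsub g h (rit g h n).1 (max (rit g h n).1.natDegree (rit g h n).2.natDegree),
      hsub g h (rit g h n).2 (max (rit g h n).1.natDegree (rit g h n).2.natDegree))

/-- `Δ(n)`: the number of solutions `x` of `R^(n) (x) = α` in `K`. -/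
noncomputable def Dlt {F K : Type*} [Field F] [Field K] [Algebra F K] (g h : F[X]) (α : K)
    (n : ℕ) : ℕ :=
  Set.ncard {x : K | aeval x (rit g h n).2 ≠ 0 ∧ aeval x (rit g h n).1 / aeval x (rit g h n).2 = α}

/-- `α` is `R`-critical. -/
def RCrit {F K : Type*} [Field F] [Field K] [Algebra F K] (g h : F[X]) (α : K) : Prop :=
  ∃ B : ℕ, ∀ n, Dlt g h α n ≤ B

end Pool.Agent.FDT
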