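import Pool.Agent.FDT.Main

/-!
# Examples of maps of the classes

All the power maps `x ^ n` are in `Cyc`, and all the Dickson polynomials `D_n(x, 1)` (that is, the
Chebyshev polynomials `2 T_n(x / 2)`) are in `QCyc`, with `π = x + 1 / x`.
-/

set_option autoImplicit false

open Polynomial

namespace Pool.Agent.FDT

variable {p : ℕ} {K : Type*} [Field K]

theorem cyc_congr {g h g' h' : K[X]} (H : Cyc p g h) (e1 : g = g') (e2 : h = h') :
    Cyc p g' h' := by
  rw [← e1, ← e2]
  exact H

theorem cyc_pow {n : ℕ} (hn : n ≠ 0) : Cyc p (X ^ n : K[X]) 1 := by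
  induction n using Nat.recOnMul with
  | zero => exact absurd rfl hn
  | one =>
    refine cyc_congr (Cyc.mob 1 0 0 1 (by simp)) ?_ ?_ <;> simp
  | prime l hl => exact Cyc.pow l hl
  | mul a b iha ihb =>
    have ha : a ≠ 0 := fun h => hn (by rw [h, zero_mul])
    have hb : b ≠ 0 := fun h => hn (by rw [h, mul_zero])
    have e0 : max (X ^ a : K[X]).natDegree (1 : K[X]).natDegree = a := by
      rw [natDegree_X_pow, natDegree_one]
      exact max_eq_left (Nat.zero_le a)
    refine cyc_congr (Cyc.comp _ _ _ _ (iha ha) (ihb hb)) ?_ ?_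
    · rw [e0, hsub, Finset.sum_eq_single a]
      · simp [← pow_mul, mul_comm]
      · intro i _ hi
        simp [coeff_X_pow, hi]
      · intro h
        exact absurd (Finset.mem_range.2 (Nat.lt_succ_self a)) h
    · rw [e0, hsub, Finset.sum_eq_single 0]
      · simp
      · intro i _ hi
        simp [coeff_one, hi]
      · intro h
        exact absurd (Finset.mem_range.2 (Nat.succ_pos a)) h

theorem qcyc_dickson [Infinite K] {n : ℕ} (hn : n ≠ 0) :
    QCyc p (dickson 1 (1 : K) n) 1 := by
  have hX2 : (X ^ 2 + 1 : K[X]).natDegree = 2 := by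
    have : (X ^ 2 + 1 : K[X]) = X ^ 2 + C 1 := by simp
    rw [this, natDegree_X_pow_add_C]
  refine ⟨X ^ 2 + 1, X, X ^ n, 1, ?_, ?_, cyc_pow hn, ?_⟩
  · exact ⟨1, -X, by ring⟩
  · rw [hX2]
    exact le_max_of_le_left (by norm_num)
  · have e0 : max (X ^ 2 + 1 : K[X]).natDegree (X : K[X]).natDegree = 2 := by
      rw [hX2, natDegree_X]
      rfl
    rw [e0]
    set M := max (dickson 1 (1 : K) n).natDegree (1 : K[X]).natDegree with hM
    have hM1 : (dickson 1 (1 : K) n).natDegree ≤ M := le_max_left _ _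
    have hM2 : (1 : K[X]).natDegree ≤ M := le_max_right _ _
    refine Polynomial.eq_of_infinite_eval_eq _ _ ?_
    refine (Set.Infinite.mono ?_ ((Set.infinite_univ (α := K)).sdiff (Set.finite_singleton 0)))
    rintro x ⟨-, hx⟩
    have hx0 : x ≠ 0 := hx
    have hu : (X ^ 2 + 1 : K[X]).eval x = (x + x⁻¹) * (X : K[X]).eval x := by
      simp only [eval_add, eval_pow, eval_X, eval_one]
      field_simp
    have hv : (X ^ n : K[X]).eval x = x ^ n * (1 : K[X]).eval x := by simp
    have h1 : (X : K[X]).natDegree ≤ 2 := by rw [natDegree_X]; norm_num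
    have h2 : (X ^ 2 + 1 : K[X]).natDegree ≤ 2 := hX2.le
    show eval x _ = eval x _
    rw [eval_mul, eval_mul, hsub_eval hM1 hu, hsub_eval hM2 hu, hsub_eval h1 hv,
      hsub_eval h2 hv, dickson_one_one_eval_add_inv x x⁻¹ (mul_inv_cancel₀ hx0)]
    simp only [eval_add, eval_pow, eval_X, eval_one, one_pow, mul_one, one_mul]
    rw [inv_pow]
    have : x ^ n ≠ 0 := pow_ne_zero _ hx0
    field_simp

end Pool.Agent.FDT
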