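import Pool.Agent.FDT.Tree
import Pool.Agent.FDT.Defs

/-!
# Polynomials over a finite field: degrees and numbers of irreducible factors
-/

set_option autoImplicit false
set_option linter.unusedSectionVars false

open Finset Polynomial

namespace Pool.Agent.FDT

section Fin

variable {F : Type*} [Field F] [Fintype F] {K : Type*} [Field K] [Algebra F K]

theorem pow_card_natDegree [Algebra.IsAlgebraic F K] (x : K) :
    x ^ (Fintype.card F) ^ (minpoly F x).natDegree = x := by
  have hx : IsIntegral F x := Algebra.IsIntegral.isIntegral x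
  have h0 : FiniteDimensional F (IntermediateField.adjoin F {x}) :=
    IntermediateField.adjoin.finiteDimensional hx
  have h00 : Finite (IntermediateField.adjoin F {x}) := Module.finite_of_finite F
  have h01 := Fintype.ofFinite (IntermediateField.adjoin F {x})
  have h1 : Fintype.card (IntermediateField.adjoin F {x}) =
      Fintype.card F ^ (minpoly F x).natDegree := by
    rw [Module.card_eq_pow_finrank (K := F), IntermediateField.adjoin.finrank hx]
  have h2 := FiniteField.pow_card (IntermediateField.AdjoinSimple.gen F x)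
  rw [h1] at h2
  have h3 := congrArg (algebraMap (IntermediateField.adjoin F {x}) K) h2
  rwa [map_pow, IntermediateField.AdjoinSimple.algebraMap_gen] at h3

theorem conj_of_minpoly [Normal F K] {x y : K} (h : minpoly F x = minpoly F y) :
    ∃ j, y = x ^ (Fintype.card F) ^ j := by
  have hx : IsIntegral F x := Algebra.IsIntegral.isIntegral x
  have h0 : FiniteDimensional F (IntermediateField.adjoin F {x}) :=
    IntermediateField.adjoin.finiteDimensional hx
  have h00 : Finite (IntermediateField.adjoin F {x}) := Module.finite_of_finite F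
  obtain ⟨σ, hσ⟩ := IsConjRoot.exists_algEquiv (show IsConjRoot F y x from h.symm)
  have h1 : Normal F (IntermediateField.adjoin F {x}) := inferInstance
  obtain ⟨j, hj⟩ := (FiniteField.bijective_frobeniusAlgEquivOfAlgebraic_pow F
    (IntermediateField.adjoin F {x})).2 (AlgEquiv.restrictNormal σ _)
  refine ⟨j, ?_⟩
  have h2 := AlgEquiv.restrictNormal_commutes σ (IntermediateField.adjoin F {x})
    (IntermediateField.AdjoinSimple.gen F x)
  rw [← hj, IntermediateField.AdjoinSimple.algebraMap_gen, hσ, AlgEquiv.coe_pow,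
    FiniteField.coe_frobeniusAlgEquivOfAlgebraic_iterate, map_pow,
    IntermediateField.AdjoinSimple.algebraMap_gen] at h2
  exact h2.symm

theorem mem_fac {P Q : F[X]} (hP : P ≠ 0) : Q ∈ fac P ↔ Irreducible Q ∧ Q.Monic ∧ Q ∣ P := by
  classical
  rw [fac, Multiset.mem_toFinset, Polynomial.mem_normalizedFactors_iff hP]

theorem minpoly_mem_fac [Algebra.IsAlgebraic F K] {P : F[X]} (hP : P ≠ 0) {x : K}
    (hx : aeval x P = 0) :
    minpoly F x ∈ fac P := by
  have h : IsIntegral F x := Algebra.IsIntegral.isIntegral x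
  exact (mem_fac hP).2 ⟨minpoly.irreducible h, minpoly.monic h, minpoly.dvd F x hx⟩

theorem exists_of_mem_fac [IsAlgClosed K] {P Q : F[X]} (hP : P ≠ 0) (hQ : Q ∈ fac P) :
    ∃ x : K, aeval x P = 0 ∧ minpoly F x = Q := by
  obtain ⟨h1, h2, h3⟩ := (mem_fac hP).1 hQ
  obtain ⟨x, hx⟩ := IsAlgClosed.exists_aeval_eq_zero K Q
    (Polynomial.degree_pos_of_irreducible h1).ne'
  refine ⟨x, aeval_eq_zero_of_dvd_aeval_eq_zero h3 hx, ?_⟩
  exact (minpoly.eq_of_irreducible_of_monic h1 hx h2).symm

/-- The distinct roots. -/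
noncomputable def rts (K : Type*) [Field K] [Algebra F K] (P : F[X]) : Finset K :=
  open Classical in (P.map (algebraMap F K)).roots.toFinset

theorem mem_rts {P : F[X]} (hP : P ≠ 0) {x : K} : x ∈ rts K P ↔ aeval x P = 0 := by
  classical
  rw [rts, Multiset.mem_toFinset, mem_roots (Polynomial.map_ne_zero hP), IsRoot.def,
    eval_map_algebraMap]

/-- The sum of the degrees is bounded by the square of the number of roots. -/
theorem sum_natDegree_le [Algebra.IsAlgebraic F K] [IsAlgClosed K] {P : F[X]} (hP : P ≠ 0) :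
    ∑ Q ∈ fac P, Q.natDegree ≤ (rts K P).card * (rts K P).card := by
  classical
  have h1 : ∀ Q ∈ fac P, ∃ x : K, aeval x P = 0 ∧ minpoly F x = Q := fun Q hQ =>
    exists_of_mem_fac hP hQ
  choose! g hg1 hg2 using h1
  have h2 : (fac P).card ≤ (rts K P).card := by
    refine card_le_card_of_injOn g (fun Q hQ => (mem_rts hP).2 (hg1 Q hQ)) ?_
    intro Q hQ Q' hQ' h
    rw [← hg2 Q hQ, ← hg2 Q' hQ', show g Q = g Q' from h]
  have h3 : ∀ Q ∈ fac P, Q.natDegree ≤ (rts K P).card := fun Q hQ => by
    obtain ⟨h4, h5, h6⟩ := (mem_fac hP).1 hQ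
    have h7 : Q.Separable := PerfectField.separable_of_irreducible h4
    rw [← card_rootSet_eq_natDegree (K := K) h7 (IsAlgClosed.splits _), ← Set.toFinset_card]
    refine card_le_card fun x hx => (mem_rts hP).2 ?_
    rw [Set.mem_toFinset, mem_rootSet] at hx
    exact aeval_eq_zero_of_dvd_aeval_eq_zero h6 hx.2
  calc ∑ Q ∈ fac P, Q.natDegree ≤ ∑ _Q ∈ fac P, (rts K P).card := sum_le_sum h3
    _ = (fac P).card * (rts K P).card := by rw [sum_const, smul_eq_mul]
    _ ≤ _ := Nat.mul_le_mul_right _ h2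

variable {p : ℕ} [Fact p.Prime] [CharP K p] {f r k : ℕ}

theorem pow_pow_eq {x : K} {q : ℕ} (h : x ^ q = x) (k : ℕ) : x ^ q ^ k = x := by
  induction k with
  | zero => simp
  | succ k ih => rw [pow_succ, pow_mul, ih, h]

theorem fr_eq_pow (hF : Fintype.card F = p ^ r) (hf : f = r * k) (n : ℕ) (x : K) :
    fr p f n x = x ^ (Fintype.card F) ^ (k * n) := by
  rw [fr_def, hF, hf, ← pow_mul]
  congr 2
  ring

theorem fr_algebraMap (hF : Fintype.card F = p ^ r) (hf : f = r * k) (n : ℕ) (a : F) :
    fr p f n (algebraMap F K a) = algebraMap F K a := by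
  rw [fr_eq_pow hF hf, ← map_pow, pow_pow_eq (FiniteField.pow_card a)]

theorem per_le [Algebra.IsAlgebraic F K] (hF : Fintype.card F = p ^ r) (hf : f = r * k)
    (x : K) : per p f x ∣ (minpoly F x).natDegree := by
  rw [← fr_eq_iff, fr_eq_pow hF hf, mul_comm, pow_mul]
  exact pow_pow_eq (pow_card_natDegree x) k

theorem allPer [Algebra.IsAlgebraic F K] (hF : Fintype.card F = p ^ r) (hf : f = r * k) :
    AllPer K p f := fun x => ⟨(minpoly F x).natDegree,
  minpoly.natDegree_pos (Algebra.IsIntegral.isIntegral x),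
  (fr_eq_iff p f _ x).2 (per_le hF hf x)⟩

/-- A map with small fibres over which everything is pulled back. -/
structure PiD (p : ℕ) [Fact p.Prime] [CharP K p] (f : ℕ) (π : K → K) (m : ℕ) : Prop where
  comm : ∀ n x, π (fr p f n x) = fr p f n (π x)
  fib : ∀ w, ∀ t : Finset K, (∀ x ∈ t, fr p f 1 x ≠ x ∧ π x = w) → t.card ≤ m
  surj : ∀ w, fr p f 1 w ≠ w → ∃ x, fr p f 1 x ≠ x ∧ π x = w

theorem clean_fr {x : K} (hx : fr p f 1 x ≠ x) (n : ℕ) :
    fr p f 1 (fr p f n x) ≠ fr p f n x := fun h => by
  rw [fr_fr, add_comm, ← fr_fr] at h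
  exact hx (fr_inj p f n h)

theorem per_le_pi (H : AllPer K p f) {π : K → K} {m : ℕ} (hπ : PiD p f π m) {x : K}
    (hx : fr p f 1 x ≠ x) : per p f x ≤ m * per p f (π x) := by
  classical
  by_contra hlt
  push Not at hlt
  set D := per p f (π x) with hD
  have hinj : ∀ i j, i ≤ j → j ≤ m → fr p f (D * i) x = fr p f (D * j) x → i = j := by
    intro i j hij hj he
    have h2 : D * j = D * i + D * (j - i) := by
      rw [← mul_add, Nat.add_sub_cancel' hij]
    rw [h2, ← fr_fr] at he
    have h3 := fr_inj p f _ he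
    have h4 := (fr_eq_iff p f _ _).1 h3.symm
    have h5 : D * (j - i) < per p f x := by
      refine lt_of_le_of_lt ?_ hlt
      rw [mul_comm]
      exact Nat.mul_le_mul_right _ (by omega)
    have h6 := Nat.eq_zero_of_dvd_of_lt h4 h5
    have h7 : 0 < D := per_pos H _
    have h8 : j - i = 0 := by
      rcases Nat.mul_eq_zero.1 h6 with h | h
      · omega
      · exact h
    omega
  have h1 := hπ.fib (π x) ((range (m + 1)).image fun i => fr p f (D * i) x) (by
    intro z hz
    obtain ⟨i, -, rfl⟩ := mem_image.1 hz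
    exact ⟨clean_fr hx _, by rw [hπ.comm, fr_eq_iff]; exact dvd_mul_right _ _⟩)
  rw [card_image_of_injOn, card_range] at h1
  · omega
  · intro i hi j hj he
    have hi' := mem_range.1 hi
    have hj' := mem_range.1 hj
    rcases le_total i j with h | h
    · exact hinj i j h (by omega) he
    · exact (hinj j i h (by omega) he.symm).symm

/-- The number of irreducible factors. -/
theorem card_le_fac [Normal F K] (hF : Fintype.card F = p ^ r) (hf : f = r * k)
    (hk : 0 < k) {π : K → K} {m : ℕ} (hπ : PiD p f π m) {P : F[X]} (hP : P ≠ 0)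
    {s : Finset K} (hs : ∀ x ∈ s, fr p f 1 x ≠ x) (hs2 : ∀ x ∈ s, ∀ x' ∈ s, cj p f x x' → x = x')
    (hr : ∀ x ∈ s, aeval (π x) P = 0) : s.card ≤ m * k * (fac P).card := by
  classical
  have H : AllPer K p f := allPer hF hf
  refine card_le_mul_card_image_of_maps_to (f := fun x => minpoly F (π x))
    (fun x hx => minpoly_mem_fac hP (hr x hx)) (m * k) fun Q _ => ?_
  set T := s.filter fun x => minpoly F (π x) = Q with hT
  rcases T.eq_empty_or_nonempty with h0 | ⟨x₀, hx₀⟩
  · rw [h0, card_empty]
    exact Nat.zero_le _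
  have hx₀' := (mem_filter.1 hx₀).2
  have h1 : ∀ x ∈ T, ∃ x', cj p f x x' ∧ ∃ i < k, π x' = π x₀ ^ Fintype.card F ^ i := by
    intro x hx
    obtain ⟨j, hj⟩ := conj_of_minpoly (F := F) (x := π x₀) (y := π x)
      (hx₀'.trans (mem_filter.1 hx).2.symm)
    set w := π x₀ ^ Fintype.card F ^ (j % k) with hw
    have h2 : π x = fr p f (j / k) w := by
      rw [fr_eq_pow hF hf, hj, hw, ← pow_mul, ← pow_add, Nat.mod_add_div]
    set D := per p f w with hD
    have hD0 : 0 < D := per_pos H _
    have h3 : j / k * (D - 1) + j / k = D * (j / k) := by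
      obtain ⟨e, he⟩ : ∃ e, D = e + 1 := ⟨D - 1, by omega⟩
      rw [he, Nat.add_sub_cancel]
      ring
    refine ⟨fr p f (j / k * (D - 1)) x, ⟨_, rfl⟩, j % k, Nat.mod_lt _ hk, ?_⟩
    rw [hπ.comm, h2, fr_fr, h3, fr_eq_iff]
    exact dvd_mul_right _ _
  choose! E hE I hI1 hI2 using h1
  have hinj : Set.InjOn E T := by
    intro x hx x' hx' he
    have h2 := hE x hx
    rw [show E x = E x' from he] at h2
    exact hs2 x (mem_filter.1 hx).1 x' (mem_filter.1 hx').1
      (cj_trans h2 (cj_symm H (hE x' hx')))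
  have hcl : ∀ x ∈ T, fr p f 1 (E x) ≠ E x := by
    intro x hx
    obtain ⟨n, hn⟩ := hE x hx
    rw [← hn]
    exact clean_fr (hs x (mem_filter.1 hx).1) n
  have h4 : T.card ≤ m * (range k).card := by
    refine card_le_mul_card_image_of_maps_to (f := I)
      (fun x hx => mem_range.2 (hI1 x hx)) m fun i _ => ?_
    have h5 : (T.filter fun x => I x = i).card = ((T.filter fun x => I x = i).image E).card :=
      (card_image_of_injOn (hinj.mono (filter_subset _ _))).symm
    rw [h5]
    refine hπ.fib (π x₀ ^ Fintype.card F ^ i) _ fun z hz => ?_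
    obtain ⟨x, hx, rfl⟩ := mem_image.1 hz
    obtain ⟨hx1, hx2⟩ := mem_filter.1 hx
    exact ⟨hcl x hx1, by rw [hI2 x hx1, hx2]⟩
  rwa [card_range] at h4

end Fin

end Pool.Agent.FDT
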