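import Mathlib

/-!
# Powers of the Frobenius map, periods, symbols

`fr p f n` is the `n`-th iterate of `x ↦ x ^ Q`, `Q = p ^ f`, on a field `K` of characteristic `p`.
-/

set_option autoImplicit false
set_option linter.unusedSectionVars false

open Finset

namespace Pool.Agent.FDT

variable {K : Type*} [Field K] (p : ℕ) [Fact p.Prime] [CharP K p] (f : ℕ)

/-- the `n`-th iterate of `x ↦ x ^ (p ^ f)` -/
noncomputable def fr (n : ℕ) : K →+* K := iterateFrobenius K p (f * n)

theorem fr_def (n : ℕ) (x : K) : fr p f n x = x ^ p ^ (f * n) := iterateFrobenius_def _ _ _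

theorem fr_fr (n m : ℕ) (x : K) : fr p f n (fr p f m x) = fr p f (n + m) x := by
  rw [fr_def, fr_def, fr_def, ← pow_mul, ← pow_add, mul_add, add_comm]

@[simp] theorem fr_zero (x : K) : fr p f 0 x = x := by
  rw [fr_def, mul_zero, pow_zero, pow_one]

theorem fr_iter (n : ℕ) (x : K) : (fr p f 1)^[n] x = fr p f n x := by
  induction n with
  | zero => simp
  | succ n ih => rw [Function.iterate_succ_apply', ih, fr_fr, add_comm]

theorem fr_inj (n : ℕ) : Function.Injective (fr (K := K) p f n) :=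
  RingHom.injective (fr (K := K) p f n)

/-- the period of `x` -/
noncomputable def per (x : K) : ℕ := Function.minimalPeriod (fr p f 1) x

theorem fr_eq_iff (n : ℕ) (x : K) : fr p f n x = x ↔ per p f x ∣ n := by
  unfold per
  rw [← Function.isPeriodicPt_iff_minimalPeriod_dvd, Function.IsPeriodicPt,
    Function.IsFixedPt, fr_iter]

theorem fr_per (x : K) : fr p f (per p f x) x = x := (fr_eq_iff p f _ x).2 dvd_rfl

theorem fr_of_fix {x : K} (hx : fr p f 1 x = x) (n : ℕ) : fr p f n x = x := by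
  rw [fr_eq_iff]
  rw [fr_eq_iff] at hx
  exact hx.trans (one_dvd n)

theorem per_dvd_of_forall {x y : K} (h : ∀ n, fr p f n y = y → fr p f n x = x) :
    per p f x ∣ per p f y := (fr_eq_iff p f _ x).1 (h _ (fr_per p f y))

theorem per_eq_of_forall {x y : K} (h : ∀ n, fr p f n x = x ↔ fr p f n y = y) :
    per p f x = per p f y :=
  Nat.dvd_antisymm (per_dvd_of_forall p f fun n => (h n).2)
    (per_dvd_of_forall p f fun n => (h n).1)

/-- conjugate elements -/
def cj (x y : K) : Prop := ∃ n, fr p f n x = y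

/-- all elements are periodic -/
def AllPer (K : Type*) [Field K] (p : ℕ) [Fact p.Prime] [CharP K p] (f : ℕ) : Prop :=
  ∀ x : K, ∃ n, 0 < n ∧ fr p f n x = x

variable {p f}

theorem per_pos (H : AllPer K p f) (x : K) : 0 < per p f x := by
  obtain ⟨n, hn, hx⟩ := H x
  exact Nat.pos_of_dvd_of_pos ((fr_eq_iff p f n x).1 hx) hn

theorem cj_refl (x : K) : cj p f x x := ⟨0, fr_zero p f x⟩

theorem cj_symm (H : AllPer K p f) {x y : K} (h : cj p f x y) : cj p f y x := by
  obtain ⟨n, rfl⟩ := h
  have h0 := per_pos H x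
  have hle : n ≤ per p f x * n := Nat.le_mul_of_pos_left n h0
  refine ⟨per p f x * n - n, ?_⟩
  rw [fr_fr, Nat.sub_add_cancel hle, fr_eq_iff]
  exact dvd_mul_right _ _

theorem cj_trans {x y z : K} (h : cj p f x y) (h' : cj p f y z) : cj p f x z := by
  obtain ⟨n, rfl⟩ := h
  obtain ⟨m, rfl⟩ := h'
  exact ⟨m + n, (fr_fr p f m n x).symm⟩

/-- the types of the symbols -/
inductive Ty where
  | mul (l : ℕ)
  | add

variable (p f)

/-- the symbol of `x`, an element of the field with `Q ^ n` elements, is trivial -/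
def neu : Ty → ℕ → K → Prop
  | .mul l, n, x => x ^ ((p ^ (f * n) - 1) / l) = 1
  | .add, n, x => ∑ i ∈ range (f * n), x ^ p ^ i = 0

/-- the good types -/
def OkTy : Ty → Prop
  | .mul l => 0 < l ∧ l ∣ p ^ f - 1
  | .add => True

/-- the norm or trace -/
def nm : Ty → ℕ → (ℕ → K) → K
  | .mul _, d, s => ∏ i ∈ range d, s i
  | .add, d, s => ∑ i ∈ range d, s i

variable {p f}

theorem dvd_pow_sub_one {l : ℕ} (h : l ∣ p ^ f - 1) (n : ℕ) : l ∣ p ^ (f * n) - 1 := by
  refine h.trans ?_
  have h1 := Nat.sub_dvd_pow_sub_pow (p ^ f) 1 n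
  rwa [one_pow, ← pow_mul] at h1

/-- additivity -/
theorem trs_add (N : ℕ) (x y : K) : ∑ i ∈ range N, (x + y) ^ p ^ i =
    ∑ i ∈ range N, x ^ p ^ i + ∑ i ∈ range N, y ^ p ^ i := by
  rw [← sum_add_distrib]
  exact sum_congr rfl fun i _ => add_pow_char_pow x y p i

theorem trs_mul (N d : ℕ) (x : K) : ∑ i ∈ range (N * d), x ^ p ^ i =
    ∑ j ∈ range N, (∑ i ∈ range d, x ^ p ^ (N * i)) ^ p ^ j := by
  induction d with
  | zero =>
    rw [mul_zero, range_zero, sum_empty, sum_empty]
    symm
    refine sum_eq_zero fun j _ => ?_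
    rw [zero_pow (pow_ne_zero _ (Fact.out : p.Prime).ne_zero)]
  | succ d ih =>
    rw [mul_add, mul_one, sum_range_add, ih, sum_range_succ, trs_add]
    congr 1
    refine sum_congr rfl fun j _ => ?_
    rw [← pow_mul, ← pow_add]

/-- The symbol of the norm. -/
theorem neu_nm {τ : Ty} (hτ : OkTy p f τ) (n d : ℕ) (x : K) :
    neu p f τ (n * d) x ↔ neu p f τ n (nm τ d fun i => fr p f (n * i) x) := by
  cases τ with
  | mul l =>
    simp only [neu, nm, fr_def]
    have h1 : (p ^ (f * (n * d)) - 1) / l =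
        (∑ i ∈ range d, p ^ (f * (n * i))) * ((p ^ (f * n) - 1) / l) := by
      have h2 : (∑ i ∈ range d, p ^ (f * (n * i))) * (p ^ (f * n) - 1) =
          p ^ (f * (n * d)) - 1 := by
        have hp : 1 ≤ p ^ (f * n) := Nat.one_le_pow _ _ (Fact.out : p.Prime).pos
        have h3 := geom_sum_mul_of_one_le hp d
        rw [← mul_assoc, pow_mul p (f * n) d]
        simp only [← mul_assoc, pow_mul p (f * n)]
        exact h3
      rw [← h2]
      exact Nat.mul_div_assoc _ (dvd_pow_sub_one hτ.2 n)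
    rw [h1, pow_mul, prod_pow_eq_pow_sum]
  | add =>
    simp only [neu, nm, fr_def]
    rw [← mul_assoc, trs_mul]
    simp only [mul_assoc]

end Pool.Agent.FDT
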