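import Pool.Agent.FDT.Cls

/-!
# The main theorem
-/

set_option autoImplicit false
set_option linter.unusedSectionVars false

open Finset Polynomial Filter

namespace Pool.Agent.FDT

section

variable {F : Type*} [Field F] [Fintype F] {K : Type*} [Field K] [Algebra F K]
  [IsAlgClosed K] [Normal F K] {p : ℕ} [Fact p.Prime] [CharP K p] {f r k : ℕ}

theorem per1 (hF : Fintype.card F = p ^ r) (hr : 0 < r) : Per1 K p := fun x =>
  ⟨r * (minpoly F x).natDegree,
    Nat.mul_pos hr (minpoly.natDegree_pos (Algebra.IsIntegral.isIntegral x)), by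
      rw [pow_mul, ← hF]
      exact pow_card_natDegree x⟩

theorem not_common {K : Type*} [Field K] {a b : K[X]} (h : IsCoprime a b) {x : K}
    (ha : a.eval x = 0) (hb : b.eval x = 0) : False := by
  obtain ⟨c, d, hcd⟩ := h
  have h3 := congrArg (fun P : K[X] => P.eval x) hcd
  simp only [eval_add, eval_mul, eval_one, ha, hb, mul_zero, add_zero] at h3
  exact zero_ne_one h3

theorem fr_eval {K : Type*} [Field K] {p : ℕ} [Fact p.Prime] [CharP K p] {f : ℕ} {a : K[X]}
    (h : ∀ i, fr p f 1 (a.coeff i) = a.coeff i) (n : ℕ) (x : K) :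
    fr p f n (a.eval x) = a.eval (fr p f n x) := by
  rw [eval_eq_sum_range, eval_eq_sum_range, map_sum]
  refine sum_congr rfl fun i _ => ?_
  rw [map_mul, map_pow, fr_of_fix p f (h i)]

/-- The quotient map. -/
theorem piD {a b : K[X]} (hab : IsCoprime a b) (hd : 1 ≤ max a.natDegree b.natDegree)
    (ha : ∀ i, fr p f 1 (a.coeff i) = a.coeff i) (hb : ∀ i, fr p f 1 (b.coeff i) = b.coeff i)
    (hbr : ∀ x : K, fr p f 1 x ≠ x → b.eval x ≠ 0) :
    PiD p f (fun x => a.eval x / b.eval x) (max a.natDegree b.natDegree) := by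
  classical
  set m := max a.natDegree b.natDegree with hm
  have hne : ∀ w : K, a - C w * b ≠ 0 := fun w h0 => by
    have h1 : a = C w * b := sub_eq_zero.1 h0
    have h2 : IsUnit b := by
      obtain ⟨c, d, hcd⟩ := hab
      rw [h1] at hcd
      exact isUnit_iff_exists_inv.2 ⟨c * C w + d, by linear_combination hcd⟩
    have h3 : b.natDegree = 0 := natDegree_eq_zero_of_isUnit h2
    have h4 : a.natDegree = 0 := by
      rw [h1]
      exact Nat.le_zero.1 ((natDegree_C_mul_le w b).trans h3.le)
    rw [hm, h3, h4] at hd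
    exact absurd hd (by norm_num)
  have hdeg : ∀ w : K, (a - C w * b).natDegree ≤ m := fun w =>
    (natDegree_sub_le _ _).trans (max_le_max le_rfl (natDegree_C_mul_le w b))
  have hcomm : ∀ n x, a.eval (fr p f n x) / b.eval (fr p f n x) =
      fr p f n (a.eval x / b.eval x) := fun n x => by
    rw [map_div₀, fr_eval ha, fr_eval hb]
  refine ⟨hcomm, fun w t ht => ?_, fun w hw => ?_⟩
  · have h1 : t ⊆ (a - C w * b).roots.toFinset := fun x hx => by
      obtain ⟨h2, h3⟩ := ht x hx
      rw [Multiset.mem_toFinset, mem_roots (hne w), IsRoot.def, eval_sub, eval_mul, eval_C,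
        sub_eq_zero]
      exact (div_eq_iff (hbr x h2)).1 h3
    exact (card_le_card h1).trans ((Multiset.toFinset_card_le _).trans
      ((card_roots' _).trans (hdeg w)))
  · have h1 : (a - C w * b).coeff m ≠ 0 := by
      rw [coeff_sub, coeff_C_mul]
      intro h2
      have h3 : a.coeff m = w * b.coeff m := sub_eq_zero.1 h2
      by_cases h4 : b.coeff m = 0
      · rw [h4, mul_zero] at h3
        rcases max_choice a.natDegree b.natDegree with h5 | h5
        · rw [← hm] at h5
          rw [h5] at h3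
          have h6 : a = 0 := leadingCoeff_eq_zero.1 h3
          rw [h6, natDegree_zero] at h5
          omega
        · rw [← hm] at h5
          rw [h5] at h4
          have h6 : b = 0 := leadingCoeff_eq_zero.1 h4
          rw [h6, natDegree_zero] at h5
          omega
      · apply hw
        rw [(eq_div_iff h4).2 h3.symm, map_div₀, ha, hb]
    have h2 : m ≤ (a - C w * b).natDegree := le_natDegree_of_ne_zero h1
    obtain ⟨x, hx⟩ := IsAlgClosed.exists_root (a - C w * b) (by
      rw [degree_eq_natDegree (hne w)]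
      exact_mod_cast (by omega : (a - C w * b).natDegree ≠ 0))
    rw [IsRoot.def, eval_sub, eval_mul, eval_C, sub_eq_zero] at hx
    have hbx : b.eval x ≠ 0 := fun h0 => by
      rw [h0, mul_zero] at hx
      exact not_common hab hx h0
    have hwx : a.eval x / b.eval x = w := (div_eq_iff hbx).2 hx
    refine ⟨x, fun h0 => hw ?_, hwx⟩
    rw [← hwx, ← hcomm, h0]

/-- The main theorem, combinatorial form. -/
theorem main (hF : Fintype.card F = p ^ r) (hr : 0 < r) {g h f₀ : F[X]} (hc : IsCoprime g h)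
    (hR : QCyc p (g.map (algebraMap F K)) (h.map (algebraMap F K)))
    (hδ : ∀ B : ℕ, ∃ n, B < dlt g h f₀ n) :
    ∃ C j n₀ : ℕ, 0 < C ∧ 0 < n₀ ∧
      ((∀ n, 2 ^ (n / n₀) ≤ C * mx g h f₀ (j + n)) ∨
      ∀ n, 2 ^ (n / n₀) ≤ C * nb g h f₀ (j + n)) := by
  classical
  have H : Per1 K p := per1 (F := F) hF hr
  have hf₀ : f₀ ≠ 0 := by
    rintro rfl
    have h0 : ∀ n, itr g h (0 : F[X]) n = 0 := by
      intro n
      induction n with
      | zero => rfl
      | succ n ih => rw [itr, ih]; simp [hsub]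
    obtain ⟨n, hn⟩ := hδ 0
    rw [dlt, h0] at hn
    simp [fac] at hn
  obtain ⟨a, b, u, v, hab, hd, huv, hid⟩ := hR
  obtain ⟨L, e, he, hL⟩ := lst_cyc H huv
  obtain ⟨e₁, he₁, h₁⟩ := exists_fix_poly H a
  obtain ⟨e₂, he₂, h₂⟩ := exists_fix_poly H b
  obtain ⟨e₃, he₃, h₃⟩ := exists_fix_finset H b.roots.toFinset
  set k := e * e₁ * (e₂ * e₃) with hk
  have hk0 : 0 < k := Nat.mul_pos (Nat.mul_pos he he₁) (Nat.mul_pos he₂ he₃)
  set f := r * k with hf
  have hf0 : 0 < f := Nat.mul_pos hr hk0
  have hkf : k ∣ f := dvd_mul_left _ _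
  have d1 : e ∣ f := ((dvd_mul_right e e₁).trans (dvd_mul_right _ _)).trans hkf
  have d2 : e₁ ∣ f := ((dvd_mul_left e₁ e).trans (dvd_mul_right _ _)).trans hkf
  have d3 : e₂ ∣ f := ((dvd_mul_right e₂ e₃).trans (dvd_mul_left _ _)).trans hkf
  have d4 : e₃ ∣ f := ((dvd_mul_left e₃ e₂).trans (dvd_mul_left _ _)).trans hkf
  obtain ⟨hok, hrel⟩ := hL f hf0 d1
  have hb0 : b ≠ 0 := by
    rintro rfl
    have h4 : IsUnit a := isCoprime_zero_right.1 hab
    rw [natDegree_eq_zero_of_isUnit h4, natDegree_zero] at hd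
    exact absurd hd (by norm_num)
  have hbr : ∀ x : K, fr p f 1 x ≠ x → b.eval x ≠ 0 := fun x hx h0 =>
    hx (h₃ f d4 x (Multiset.mem_toFinset.2 ((mem_roots hb0).2 h0)))
  have hπ := piD (p := p) (f := f) hab hd (h₁ f d2) (h₂ f d3) hbr
  have hcK : IsCoprime (g.map (algebraMap F K)) (h.map (algebraMap F K)) :=
    hc.map (mapRingHom (algebraMap F K))
  have D : Dat g h p f L (fun x : K => a.eval x / b.eval x) (max a.natDegree b.natDegree) := by
    refine ⟨hc, hok, hπ, fun x z hz hxz => ?_⟩
    have hx := ch_clean hok hxz hz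
    obtain ⟨hv, hu⟩ := (hrel x z hz).2 hxz
    have hbx := hbr x hx
    have hbz := hbr z hz
    have h4 := congrArg (fun P : K[X] => P.eval x) hid
    have hux : a.eval x = a.eval x / b.eval x * b.eval x := (div_mul_cancel₀ _ hbx).symm
    simp only [eval_mul] at h4
    rw [hsub_eval (le_max_left _ _) hux, hsub_eval (le_max_right _ _) hux,
      hsub_eval (le_max_left _ _) hu, hsub_eval (le_max_right _ _) hu] at h4
    have hbM := pow_ne_zero (max (g.map (algebraMap F K)).natDegree
      (h.map (algebraMap F K)).natDegree) hbx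
    have hvm := pow_ne_zero (max a.natDegree b.natDegree) hv
    have h5 : (g.map (algebraMap F K)).eval (a.eval x / b.eval x) * b.eval z =
        (h.map (algebraMap F K)).eval (a.eval x / b.eval x) * a.eval z := by
      apply mul_left_cancel₀ hbM
      apply mul_left_cancel₀ hvm
      linear_combination h4
    have h6 : (g.map (algebraMap F K)).eval (a.eval x / b.eval x) =
        a.eval z / b.eval z * (h.map (algebraMap F K)).eval (a.eval x / b.eval x) := by
      rw [div_mul_eq_mul_div, eq_div_iff hbz, h5, mul_comm]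
    refine ⟨fun h7 => ?_, h6⟩
    rw [h7, mul_zero] at h6
    exact not_common hcK h6 h7
  rcases core hF hf hk0 D hf0 hf₀ hδ with ⟨j, hj⟩ | ⟨j, n₀, hn₀, hj⟩
  · refine ⟨max a.natDegree b.natDegree, j, 1, hd, one_pos, Or.inl fun n => ?_⟩
    rw [Nat.div_one]
    exact hj n
  · exact ⟨max a.natDegree b.natDegree * k, j, n₀, Nat.mul_pos hd hk0, hn₀, Or.inr hj⟩

end

section

variable {F : Type*} [Field F] [Fintype F] {K : Type*} [Field K] [Algebra F K]
  [IsAlgClosed K] [Normal F K]

/-- The solutions of `R^(n) (x) = α` are roots of `f_R^(n)`, when `α` is a root of `f` outside of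
the base field. -/
theorem root_of_rit {g h f₀ : F[X]} (hc : IsCoprime g h) (hne : ∀ n, itr g h f₀ n ≠ 0) {α : K}
    (hα : α ∉ Set.range (algebraMap F K)) (hroot : aeval α f₀ = 0) (n : ℕ) (x : K)
    (h1 : aeval x (rit g h n).2 ≠ 0)
    (h2 : aeval x (rit g h n).1 = α * aeval x (rit g h n).2) :
    aeval x (itr g h f₀ n) = 0 := by
  induction n generalizing x with
  | zero =>
    simp only [rit, aeval_X, map_one, mul_one] at h2
    rw [h2]
    exact hroot
  | succ n ih =>
    rw [itr, root_iff hc (hne n) _ rfl]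
    have hn2 : (rit g h n).2.natDegree ≤ max (rit g h n).1.natDegree (rit g h n).2.natDegree :=
      le_max_right _ _
    have hn1 : (rit g h n).1.natDegree ≤ max (rit g h n).1.natDegree (rit g h n).2.natDegree :=
      le_max_left _ _
    simp only [rit] at h1 h2
    set m := max (rit g h n).1.natDegree (rit g h n).2.natDegree with hm
    rw [← eval_map_algebraMap, hsub_map] at h1
    rw [← eval_map_algebraMap, ← eval_map_algebraMap, hsub_map, hsub_map] at h2
    by_cases hv : (h.map (algebraMap F K)).eval x = 0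
    · exfalso
      rw [hsub_eval_zero hv] at h1
      rw [hsub_eval_zero hv, hsub_eval_zero hv, ← mul_assoc] at h2
      have h3 := mul_right_cancel₀ (right_ne_zero_of_mul h1) h2
      have h4 := left_ne_zero_of_mul h1
      rw [coeff_map] at h3 h4
      rw [coeff_map] at h3
      refine hα ⟨(rit g h n).1.coeff m / (rit g h n).2.coeff m, ?_⟩
      rw [map_div₀, div_eq_iff h4, h3]
    · have hu : (g.map (algebraMap F K)).eval x = (g.map (algebraMap F K)).eval x /
          (h.map (algebraMap F K)).eval x * (h.map (algebraMap F K)).eval x :=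
        (div_mul_cancel₀ _ hv).symm
      rw [hsub_eval (by rw [natDegree_map]; exact hn2) hu] at h1
      rw [hsub_eval (by rw [natDegree_map]; exact hn1) hu,
        hsub_eval (by rw [natDegree_map]; exact hn2) hu] at h2
      refine ⟨_, ⟨hv, hu⟩, ih _ ?_ ?_⟩
      · rw [← eval_map_algebraMap]
        exact right_ne_zero_of_mul h1
      · rw [← eval_map_algebraMap, ← eval_map_algebraMap]
        apply mul_left_cancel₀ (pow_ne_zero m hv)
        linear_combination h2

/-- The number of roots is at most the sum of the degrees. -/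
theorem card_rts_le {P : F[X]} (hP : P ≠ 0) :
    (rts K P).card ≤ ∑ Q ∈ fac P, Q.natDegree := by
  classical
  have h1 : rts K P ⊆ (fac P).biUnion fun Q => rts K Q := fun x hx => by
    have hx' := (mem_rts hP).1 hx
    exact mem_biUnion.2 ⟨minpoly F x, minpoly_mem_fac hP hx',
      (mem_rts (minpoly.ne_zero (Algebra.IsIntegral.isIntegral x))).2 (minpoly.aeval F x)⟩
  refine (card_le_card h1).trans (card_biUnion_le.trans (sum_le_sum fun Q _ => ?_))
  rw [rts]
  exact (Multiset.toFinset_card_le _).trans ((card_roots' _).trans (natDegree_map _).le)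

/-- A root of `f` outside of the base field which is not critical. -/
theorem dlt_unbounded {g h f₀ : F[X]} (hc : IsCoprime g h) (hne : ∀ n, itr g h f₀ n ≠ 0) {α : K}
    (hα : α ∉ Set.range (algebraMap F K)) (hroot : aeval α f₀ = 0) (hcr : ¬ RCrit g h α)
    (B : ℕ) : ∃ n, B < dlt g h f₀ n := by
  classical
  by_contra hcon
  push Not at hcon
  refine hcr ⟨B, fun n => ?_⟩
  have h1 : {x : K | aeval x (rit g h n).2 ≠ 0 ∧
      aeval x (rit g h n).1 / aeval x (rit g h n).2 = α} ⊆ (rts K (itr g h f₀ n) : Set K) := by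
    rintro x ⟨h2, h3⟩
    exact (mem_rts (hne n)).2 (root_of_rit hc hne hα hroot n x h2 ((div_eq_iff h2).1 h3))
  calc Dlt g h α n ≤ (rts K (itr g h f₀ n) : Set K).ncard :=
        Set.ncard_le_ncard h1 (finite_toSet _)
    _ = (rts K (itr g h f₀ n)).card := Set.ncard_coe_finset _
    _ ≤ dlt g h f₀ n := card_rts_le (hne n)
    _ ≤ B := hcon n

/-- The iterates are not zero as soon as `g / h` is surjective outside of a finite set. -/
theorem itr_ne_zero (K : Type*) [Field K] [Algebra F K] [IsAlgClosed K] [Normal F K]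
    {g h f₀ : F[X]} (hc : IsCoprime g h) (hd : 1 ≤ max g.natDegree h.natDegree)
    (hf₀ : f₀ ≠ 0) (n : ℕ) : itr g h f₀ n ≠ 0 := by
  classical
  induction n with
  | zero => exact hf₀
  | succ n ih =>
    intro h0
    have hinf : Infinite K := IsAlgClosed.instInfinite
    have h1 : ∀ x : K, ∃ y ∈ rts K (itr g h f₀ n),
        Tr (g.map (algebraMap F K)) (h.map (algebraMap F K)) x y := fun x => by
      have h2 : aeval x (itr g h f₀ (n + 1)) = 0 := by rw [h0, map_zero]
      rw [itr, root_iff hc ih _ rfl] at h2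
      obtain ⟨y, h3, h4⟩ := h2
      exact ⟨y, (mem_rts ih).2 h4, h3⟩
    choose G hG1 hG2 using h1
    have h2 : (Set.univ : Set K) ⊆ ⋃ y ∈ rts K (itr g h f₀ n),
        {x | Tr (g.map (algebraMap F K)) (h.map (algebraMap F K)) x y} := fun x _ => by
      simp only [Set.mem_iUnion, exists_prop]
      exact ⟨G x, hG1 x, hG2 x⟩
    refine Set.infinite_univ (α := K) ((Set.Finite.biUnion (finite_toSet _) fun y _ => ?_).subset
      h2)
    by_cases h3 : (g.map (algebraMap F K)) - C y * (h.map (algebraMap F K)) = 0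
    · exfalso
      have hcK : IsCoprime (g.map (algebraMap F K)) (h.map (algebraMap F K)) :=
        hc.map (mapRingHom (algebraMap F K))
      have h4 : g.map (algebraMap F K) = C y * h.map (algebraMap F K) := sub_eq_zero.1 h3
      have h5 : IsUnit (h.map (algebraMap F K)) := by
        obtain ⟨c, d, hcd⟩ := hcK
        rw [h4] at hcd
        exact isUnit_iff_exists_inv.2 ⟨c * C y + d, by linear_combination hcd⟩
      have h6 := natDegree_eq_zero_of_isUnit h5
      have h7 : (g.map (algebraMap F K)).natDegree = 0 := by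
        rw [h4]
        exact Nat.le_zero.1 ((natDegree_C_mul_le y _).trans h6.le)
      rw [natDegree_map] at h6 h7
      rw [h6, h7] at hd
      exact absurd hd (by norm_num)
    · refine ((g.map (algebraMap F K)) - C y *
        (h.map (algebraMap F K))).roots.toFinset.finite_toSet.subset fun x hx => ?_
      rw [mem_coe, Multiset.mem_toFinset, mem_roots h3, IsRoot.def, eval_sub, eval_mul, eval_C,
        sub_eq_zero]
      exact hx.2

end

/-- From the combinatorial form to logarithms. -/
theorem log_growth (A : ℕ → ℕ) {C j n₀ : ℕ} (hC : 0 < C) (hn₀ : 0 < n₀)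
    (h : ∀ n, 2 ^ (n / n₀) ≤ C * A (j + n)) :
    ∃ c : ℝ, 0 < c ∧ ∀ᶠ n : ℕ in atTop, (n : ℝ) ≤ c * Real.log (A n) := by
  have hl2 : 0 < Real.log 2 := Real.log_pos one_lt_two
  have hn0 : (0 : ℝ) < n₀ := Nat.cast_pos.2 hn₀
  refine ⟨2 * n₀ / Real.log 2, by positivity, ?_⟩
  have hlim : ∀ᶠ n : ℕ in atTop, 2 * ((j : ℝ) + n₀) + 2 * n₀ / Real.log 2 * Real.log C ≤ n :=
    tendsto_natCast_atTop_atTop.eventually_ge_atTop _
  filter_upwards [hlim, eventually_ge_atTop j] with n hn hjn
  obtain ⟨k, rfl⟩ := Nat.exists_eq_add_of_le hjn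
  have h1 := h k
  have hA : 0 < A (j + k) := Nat.pos_of_ne_zero fun h0 => by
    rw [h0, mul_zero] at h1
    exact absurd h1 (not_le.2 (by positivity))
  have h2 : ((2 : ℝ) ^ (k / n₀)) ≤ C * A (j + k) := by exact_mod_cast h1
  have h3 := Real.log_le_log (by positivity) h2
  have hC' : (0 : ℝ) < C := Nat.cast_pos.2 hC
  have hA' : (0 : ℝ) < A (j + k) := Nat.cast_pos.2 hA
  rw [Real.log_pow, Real.log_mul hC'.ne' hA'.ne'] at h3
  have h4 : (k : ℝ) < ((k / n₀ : ℕ) + 1) * n₀ := by
    have := Nat.lt_div_mul_add hn₀ (a := k)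
    have h5 : k < (k / n₀ + 1) * n₀ := by
      rw [add_mul, one_mul]
      exact this
    exact_mod_cast h5
  have h5 : (k : ℝ) / n₀ - 1 ≤ ((k / n₀ : ℕ) : ℝ) := by
    rw [sub_le_iff_le_add, div_le_iff₀ hn0]
    exact h4.le
  have h6 : ((k : ℝ) / n₀ - 1) * Real.log 2 ≤ Real.log C + Real.log (A (j + k)) :=
    (mul_le_mul_of_nonneg_right h5 hl2.le).trans h3
  push_cast at hn ⊢
  have h7 : 2 * (n₀ : ℝ) / Real.log 2 * (((k : ℝ) / n₀ - 1) * Real.log 2) =
      2 * k - 2 * n₀ := by
    field_simp
  have h8 : 0 < 2 * (n₀ : ℝ) / Real.log 2 := by positivity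
  have h9 := mul_le_mul_of_nonneg_left h6 h8.le
  rw [h7, mul_add] at h9
  linarith

end Pool.Agent.FDT
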