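import Pool.Agent.FDT.Frob

/-!
# Elementary steps

The elementary maps of a tower: Moebius maps, the Frobenius map, `x ↦ x ^ l`, `x ↦ x ^ p - x`,
and how the symbols of Moebius functions are carried from a point to a point above it.
-/

set_option autoImplicit false
set_option linter.unusedSectionVars false

open Finset

namespace Pool.Agent.FDT

/-- an elementary map -/
inductive Stp (K : Type*) where
  | mob (a b c d : K)
  | frb
  | pow (l : ℕ)
  | art

variable {K : Type*} [Field K] (p : ℕ) [Fact p.Prime] [CharP K p] (f : ℕ)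

/-- `x` is mapped to `y` -/
def Rel : Stp K → K → K → Prop
  | .mob a b c d, x, y => c * x + d ≠ 0 ∧ a * x + b = y * (c * x + d)
  | .frb, x, y => x ^ p = y
  | .pow l, x, y => x ^ l = y
  | .art, x, y => x ^ p - x = y

/-- the action on pairs -/
def hom : Stp K → K × K → K × K
  | .mob a b c d, v => (a * v.1 + b * v.2, c * v.1 + d * v.2)
  | .frb, v => (v.1 ^ p, v.2 ^ p)
  | .pow l, v => (v.1 ^ l, v.2 ^ l)
  | .art, v => (v.1 ^ p - v.1 * v.2 ^ (p - 1), v.2 ^ p)

/-- the derivative of the action on pairs, at `b` in the direction `a`, and the action itself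
for the trivial steps -/
def der : Stp K → K × K → K × K → K × K
  | .mob a b c d, _, v => (a * v.1 + b * v.2, c * v.1 + d * v.2)
  | .frb, _, v => (v.1 ^ p, v.2 ^ p)
  | .pow l, b, a => (l * b.1 ^ (l - 1) * a.1, l * b.2 ^ (l - 1) * a.2)
  | .art, b, a => (b.1 * b.2 ^ (p - 2) * a.2 - a.1 * b.2 ^ (p - 1), 0)

/-- the separable degree -/
def dg : Stp K → ℕ
  | .mob _ _ _ _ => 1
  | .frb => 1
  | .pow l => l
  | .art => p

/-- the steps with fixed coefficients -/
def Ok : Stp K → Prop
  | .mob a b c d => fr p f 1 a = a ∧ fr p f 1 b = b ∧ fr p f 1 c = c ∧ fr p f 1 d = d ∧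
      a * d - b * c ≠ 0
  | .frb => True
  | .pow l => l.Prime ∧ (l : K) ≠ 0 ∧ l ∣ p ^ f - 1
  | .art => True

/-- the bracket -/
def br (y : K) (v : K × K) : K := v.1 - y * v.2

/-- the value of the Moebius function `c` -/
def val (c : (K × K) × (K × K)) (y : K) : K := br y c.1 / br y c.2

/-- the identity -/
def cid : (K × K) × (K × K) := ((0, -1), (1, 0))

theorem val_cid (y : K) : val cid y = y := by
  simp [val, br, cid]

/-- fixed pairs -/
def Fxd (v : K × K) : Prop := fr p f 1 v.1 = v.1 ∧ fr p f 1 v.2 = v.2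

/-- good conditions -/
def Good (c : (K × K) × (K × K)) : Prop := Fxd p f c.1 ∧ Fxd p f c.2 ∧ c.2 ≠ 0

/-- the transfer of conditions -/
def tr : Ty → Stp K → (K × K) × (K × K) → (K × K) × (K × K)
  | .mul _, S, c => (hom p S c.1, hom p S c.2)
  | .add, S, c => (der p S c.2 c.1, hom p S c.2)

variable {p f}

theorem good_cid : Good p f (cid : (K × K) × (K × K)) := by
  refine ⟨⟨?_, ?_⟩, ⟨?_, ?_⟩, ?_⟩ <;> simp [cid]

theorem rel_fr {S : Stp K} (hS : Ok p f S) {x y : K} (h : Rel p S x y) (n : ℕ) :
    Rel p S (fr p f n x) (fr p f n y) := by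
  cases S with
  | mob a b c d =>
    obtain ⟨ha, hb, hc, hd, -⟩ := hS
    have e1 : fr p f n (c * x + d) = c * fr p f n x + d := by
      rw [map_add, map_mul, fr_of_fix p f hc, fr_of_fix p f hd]
    have e2 : fr p f n (a * x + b) = a * fr p f n x + b := by
      rw [map_add, map_mul, fr_of_fix p f ha, fr_of_fix p f hb]
    refine ⟨?_, ?_⟩
    · rw [← e1]
      exact (map_ne_zero _).2 h.1
    · rw [← e1, ← e2, h.2, map_mul]
  | frb => exact (map_pow _ _ _).symm.trans (congrArg _ h)
  | pow l => exact (map_pow _ _ _).symm.trans (congrArg _ h)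
  | art =>
    have h' : x ^ p - x = y := h
    show (fr p f n x) ^ p - fr p f n x = fr p f n y
    rw [← h', map_sub, map_pow]

theorem rel_fun {S : Stp K} {x y y' : K} (h : Rel p S x y) (h' : Rel p S x y') : y = y' := by
  cases S with
  | mob a b c d => exact mul_right_cancel₀ h.1 (h.2.symm.trans h'.2)
  | frb => exact Eq.trans (Eq.symm h) h'
  | pow l => exact Eq.trans (Eq.symm h) h'
  | art => exact Eq.trans (Eq.symm h) h'

theorem rel_clean {S : Stp K} (hS : Ok p f S) {x y : K} (h : Rel p S x y)
    (hy : fr p f 1 y ≠ y) : fr p f 1 x ≠ x := fun hx => by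
  have h1 := rel_fr hS h 1
  rw [hx] at h1
  exact hy (rel_fun h1 h)

/-- the fixed pairs give nonzero brackets at the clean points -/
theorem br_ne {y : K} (hy : fr p f 1 y ≠ y) {v : K × K} (hv : Fxd p f v) (h0 : v ≠ 0) :
    br y v ≠ 0 := fun h => by
  have h1 : v.1 = y * v.2 := sub_eq_zero.1 h
  by_cases h2 : v.2 = 0
  · rw [h2, mul_zero] at h1
    exact h0 (Prod.ext h1 h2)
  · refine hy ?_
    have h3 : y = v.1 / v.2 := (eq_div_iff h2).2 h1.symm
    rw [h3, map_div₀, hv.1, hv.2]

theorem fr_br {v : K × K} (hv : Fxd p f v) (n : ℕ) (y : K) :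
    fr p f n (br y v) = br (fr p f n y) v := by
  rw [br, br, map_sub, map_mul, fr_of_fix p f hv.1, fr_of_fix p f hv.2]

theorem fr_val {c : (K × K) × (K × K)} (hc : Good p f c) (n : ℕ) (y : K) :
    fr p f n (val c y) = val c (fr p f n y) := by
  rw [val, val, map_div₀, fr_br hc.1, fr_br hc.2.1]

theorem fxd_hom {S : Stp K} (hS : Ok p f S) {v : K × K} (hv : Fxd p f v) :
    Fxd p f (hom p S v) := by
  obtain ⟨h1, h2⟩ := hv
  cases S with
  | mob a b c d =>
    obtain ⟨ha, hb, hc, hd, -⟩ := hS
    refine ⟨?_, ?_⟩ <;> simp only [hom, map_add, map_mul, ha, hb, hc, hd, h1, h2]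
  | frb => refine ⟨?_, ?_⟩ <;> simp only [hom, map_pow, h1, h2]
  | pow l => refine ⟨?_, ?_⟩ <;> simp only [hom, map_pow, h1, h2]
  | art => refine ⟨?_, ?_⟩ <;> simp only [hom, map_pow, map_sub, map_mul, h1, h2]

theorem fxd_der {S : Stp K} (hS : Ok p f S) {b a : K × K} (hb : Fxd p f b) (ha : Fxd p f a) :
    Fxd p f (der p S b a) := by
  obtain ⟨h1, h2⟩ := ha
  obtain ⟨h3, h4⟩ := hb
  cases S with
  | mob a b c d =>
    obtain ⟨ha, hb, hc, hd, -⟩ := hS
    refine ⟨?_, ?_⟩ <;> simp only [der, map_add, map_mul, ha, hb, hc, hd, h1, h2]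
  | frb => refine ⟨?_, ?_⟩ <;> simp only [der, map_pow, h1, h2]
  | pow l => refine ⟨?_, ?_⟩ <;> simp only [der, map_pow, map_mul, map_natCast, h1, h2, h3, h4]
  | art =>
    refine ⟨?_, ?_⟩ <;> simp only [der, map_pow, map_sub, map_mul, map_zero, h1, h2, h3, h4]

theorem hom_ne {S : Stp K} (hS : Ok p f S) {v : K × K} (h0 : v ≠ 0) : hom p S v ≠ 0 := by
  have hp : p ≠ 0 := (Fact.out : p.Prime).ne_zero
  intro h
  apply h0
  cases S with
  | mob a b c d =>
    obtain ⟨-, -, -, -, hdet⟩ := hS
    have h1 : a * v.1 + b * v.2 = 0 := congrArg Prod.fst h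
    have h2 : c * v.1 + d * v.2 = 0 := congrArg Prod.snd h
    have h3 : (a * d - b * c) * v.1 = 0 := by linear_combination d * h1 - b * h2
    have h4 : (a * d - b * c) * v.2 = 0 := by linear_combination a * h2 - c * h1
    exact Prod.ext ((mul_eq_zero.1 h3).resolve_left hdet) ((mul_eq_zero.1 h4).resolve_left hdet)
  | frb =>
    exact Prod.ext (pow_eq_zero_iff hp |>.1 (congrArg Prod.fst h))
      (pow_eq_zero_iff hp |>.1 (congrArg Prod.snd h))
  | pow l =>
    have hl : l ≠ 0 := hS.1.ne_zero
    exact Prod.ext (pow_eq_zero_iff hl |>.1 (congrArg Prod.fst h))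
      (pow_eq_zero_iff hl |>.1 (congrArg Prod.snd h))
  | art =>
    have h2 : v.2 = 0 := pow_eq_zero_iff hp |>.1 (congrArg Prod.snd h)
    have h1 : v.1 ^ p - v.1 * v.2 ^ (p - 1) = 0 := congrArg Prod.fst h
    have hp1 : p - 1 ≠ 0 := by
      have := (Fact.out : p.Prime).two_le
      omega
    rw [h2, zero_pow hp1, mul_zero, sub_zero] at h1
    exact Prod.ext (pow_eq_zero_iff hp |>.1 h1) h2

theorem good_tr {S : Stp K} (hS : Ok p f S) (τ : Ty) {c : (K × K) × (K × K)}
    (hc : Good p f c) : Good p f (tr p τ S c) := by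
  cases τ with
  | mul l => exact ⟨fxd_hom hS hc.1, fxd_hom hS hc.2.1, hom_ne hS hc.2.2⟩
  | add => exact ⟨fxd_der hS hc.2.1 hc.1, fxd_hom hS hc.2.1, hom_ne hS hc.2.2⟩

/-! ### Trivial steps -/

theorem neu_pow (τ : Ty) (n : ℕ) (u : K) : neu p f τ n (u ^ p) ↔ neu p f τ n u := by
  have hp : p ≠ 0 := (Fact.out : p.Prime).ne_zero
  cases τ with
  | mul l =>
    simp only [neu]
    rw [← pow_mul, mul_comm, pow_mul]
    constructor
    · intro h
      exact frobenius_inj K p (by rw [frobenius_def, frobenius_def, h, one_pow])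
    · intro h
      rw [h, one_pow]
  | add =>
    simp only [neu]
    have : ∑ i ∈ range (f * n), (u ^ p) ^ p ^ i = (∑ i ∈ range (f * n), u ^ p ^ i) ^ p := by
      rw [sum_pow_char p]
      refine sum_congr rfl fun i _ => ?_
      rw [← pow_mul, ← pow_mul, mul_comm]
    rw [this, pow_eq_zero_iff hp]

/-- a trivial step -/
def Triv : Stp K → Prop
  | .mob _ _ _ _ => True
  | .frb => True
  | .pow _ => False
  | .art => False

theorem rel_inj {S : Stp K} (hS : Ok p f S) (hT : Triv S) {x x' y : K} (h : Rel p S x y)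
    (h' : Rel p S x' y) : x = x' := by
  cases S with
  | mob a b c d =>
    obtain ⟨-, -, -, -, hdet⟩ := hS
    obtain ⟨h1, h2⟩ := h
    obtain ⟨h3, h4⟩ := h'
    have h5 : a - y * c ≠ 0 := by
      intro h5
      apply hdet
      have h6 : a = y * c := sub_eq_zero.1 h5
      have h7 : b = y * d := by rw [h6] at h2; linear_combination h2
      rw [h6, h7]
      ring
    have h6 : (a - y * c) * (x - x') = 0 := by linear_combination h2 - h4
    exact sub_eq_zero.1 ((mul_eq_zero.1 h6).resolve_left h5)
  | frb => exact frobenius_inj K p (Eq.trans h (Eq.symm h'))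
  | pow l => exact hT.elim
  | art => exact hT.elim

theorem triv_per {S : Stp K} (hS : Ok p f S) (hT : Triv S) {x y : K} (h : Rel p S x y) :
    per p f x = per p f y := by
  refine per_eq_of_forall p f fun n => ⟨fun hx => ?_, fun hy => ?_⟩
  · have h1 := rel_fr hS h n
    rw [hx] at h1
    exact rel_fun h1 h
  · have h1 := rel_fr hS h n
    rw [hy] at h1
    exact rel_inj hS hT h1 h

theorem triv_neu {S : Stp K} (hS : Ok p f S) (hT : Triv S) {x y : K} (h : Rel p S x y)
    (τ : Ty) (c : (K × K) × (K × K)) (n : ℕ) :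
    neu p f τ n (val c x) ↔ neu p f τ n (val (tr p τ S c) y) := by
  cases S with
  | mob a b c' d =>
    obtain ⟨-, -, -, -, hdet⟩ := hS
    obtain ⟨h1, h2⟩ := h
    have key : ∀ v : K × K, br y (hom p (.mob a b c' d) v) =
        (a * d - b * c') / (c' * x + d) * br x v := fun v => by
      simp only [br, hom]
      rw [div_mul_eq_mul_div, eq_div_iff h1]
      linear_combination (c' * v.1 + d * v.2) * h2
    have h4 : (a * d - b * c') / (c' * x + d) ≠ 0 := div_ne_zero hdet h1
    have : val (tr p τ (.mob a b c' d) c) y = val c x := by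
      have e : tr p τ (.mob a b c' d) c =
          (hom p (.mob a b c' d) c.1, hom p (.mob a b c' d) c.2) := by
        cases τ <;> rfl
      rw [e, val, val, key, key, mul_div_mul_left _ _ h4]
    rw [this]
  | frb =>
    have key : ∀ v : K × K, br y (hom p .frb v) = (br x v) ^ p := fun v => by
      have h3 : x ^ p = y := h
      simp only [br, hom]
      rw [← h3, sub_pow_char, mul_pow]
    have : val (tr p τ .frb c) y = (val c x) ^ p := by
      have e : tr p τ .frb c = (hom p .frb c.1, hom p .frb c.2) := by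
        cases τ <;> rfl
      rw [e, val, val, key, key, div_pow]
    rw [this, neu_pow]
  | pow l => exact hT.elim
  | art => exact hT.elim

/-! ### Products and sums over the points above `y` -/

theorem eval_derivative_prod {ι : Type*} [DecidableEq ι] (I : Finset ι) (s t : ι → K)
    (hs : ∀ i ∈ I, s i ≠ 0) :
    (Polynomial.derivative (∏ i ∈ I, (Polynomial.C (s i) + Polynomial.X *
      Polynomial.C (t i)))).eval 0 = (∏ i ∈ I, s i) * ∑ i ∈ I, t i / s i := by
  induction I using Finset.induction_on with
  | empty => simp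
  | insert a I ha ih =>
    have h1 : ∀ i ∈ I, s i ≠ 0 := fun i hi => hs i (mem_insert_of_mem hi)
    have h2 : s a ≠ 0 := hs a (mem_insert_self _ _)
    have h3 : Polynomial.eval 0 (∏ i ∈ I, (Polynomial.C (s i) + Polynomial.X *
        Polynomial.C (t i))) = ∏ i ∈ I, s i := by
      rw [Polynomial.eval_prod]
      exact prod_congr rfl fun i _ => by simp
    rw [prod_insert ha, prod_insert ha, sum_insert ha, Polynomial.derivative_mul,
      Polynomial.eval_add, Polynomial.eval_mul, Polynomial.eval_mul, ih h1, h3]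
    simp only [Polynomial.derivative_add, Polynomial.derivative_C, Polynomial.derivative_mul,
      Polynomial.derivative_X, Polynomial.eval_add, Polynomial.eval_mul, Polynomial.eval_C,
      Polynomial.eval_X, Polynomial.eval_zero, Polynomial.eval_one]
    field_simp
    ring

/-- the polynomial of the step -/
noncomputable def gp (p : ℕ) : Stp K → K → Polynomial K
  | .pow l, y => Polynomial.X ^ l - Polynomial.C y
  | .art, y => Polynomial.X ^ p - (Polynomial.X + Polynomial.C y)
  | _, _ => 1

theorem gp_monic {S : Stp K} (hS : Ok p f S) (hT : ¬ Triv S) (y : K) :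
    (gp p S y).Monic ∧ (gp p S y).natDegree = dg p S := by
  cases S with
  | mob a b c d => exact absurd trivial hT
  | frb => exact absurd trivial hT
  | pow l =>
    exact ⟨Polynomial.monic_X_pow_sub_C y hS.1.ne_zero, Polynomial.natDegree_X_pow_sub_C⟩
  | art =>
    have hp : 1 < p := (Fact.out : p.Prime).one_lt
    have h1 : (Polynomial.X + Polynomial.C y : Polynomial K).degree < p := by
      rw [Polynomial.degree_X_add_C]
      exact_mod_cast hp
    refine ⟨Polynomial.monic_X_pow_sub h1, ?_⟩
    rw [← Polynomial.degree_X_pow (R := K) p] at h1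
    refine Polynomial.natDegree_eq_of_degree_eq_some ?_
    show (Polynomial.X ^ p - (Polynomial.X + Polynomial.C y)).degree = _
    rw [Polynomial.degree_sub_eq_left_of_degree_lt h1, Polynomial.degree_X_pow]
    rfl

theorem gp_eval {S : Stp K} (hT : ¬ Triv S) {x y : K} (h : Rel p S x y) :
    (gp p S y).eval x = 0 := by
  cases S with
  | mob a b c d => exact absurd trivial hT
  | frb => exact absurd trivial hT
  | pow l =>
    have h' : x ^ l = y := h
    simp [gp, h']
  | art =>
    have h' : x ^ p - x = y := h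
    simp [gp, ← h']

theorem gp_prod {S : Stp K} (hS : Ok p f S) (hT : ¬ Triv S) {y : K} {x : ℕ → K}
    (hinj : Set.InjOn x (range (dg p S))) (hx : ∀ i < dg p S, Rel p S (x i) y) :
    ∏ i ∈ range (dg p S), (Polynomial.X - Polynomial.C (x i)) = gp p S y := by
  obtain ⟨h1, h2⟩ := gp_monic hS hT y
  have h3 : (∏ i ∈ range (dg p S), (Polynomial.X - Polynomial.C (x i))).Monic :=
    Polynomial.monic_prod_of_monic _ _ fun i _ => Polynomial.monic_X_sub_C _
  have h4 : (∏ i ∈ range (dg p S), (Polynomial.X - Polynomial.C (x i))).natDegree = dg p S := by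
    rw [Polynomial.natDegree_finsetProd_X_sub_C_eq_card, card_range]
  refine Polynomial.eq_of_degree_le_of_eval_index_eq (range (dg p S)) hinj ?_ ?_ ?_ ?_
  · rw [Polynomial.degree_eq_natDegree h3.ne_zero, h4, card_range]
  · rw [Polynomial.degree_eq_natDegree h3.ne_zero, h4, Polynomial.degree_eq_natDegree h1.ne_zero,
      h2]
  · rw [h1.leadingCoeff, h3.leadingCoeff]
  · intro i hi
    rw [gp_eval hT (hx i (mem_range.1 hi)), Polynomial.eval_prod]
    exact prod_eq_zero hi (by simp)

/-- The product of the brackets over the points above `y`. -/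
theorem prod_br {S : Stp K} (hS : Ok p f S) (hT : ¬ Triv S) {y : K} {x : ℕ → K}
    (hinj : Set.InjOn x (range (dg p S))) (hx : ∀ i < dg p S, Rel p S (x i) y) (v : K × K) :
    ∏ i ∈ range (dg p S), br (x i) v = br y (hom p S v) := by
  have h0 := gp_prod hS hT hinj hx
  have hp : p ≠ 0 := (Fact.out : p.Prime).ne_zero
  by_cases hv : v.2 = 0
  · have e1 : ∏ i ∈ range (dg p S), br (x i) v = v.1 ^ dg p S := by
      simp [br, hv]
    rw [e1]
    cases S with
    | mob a b c d => exact absurd trivial hT
    | frb => exact absurd trivial hT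
    | pow l => simp [br, hom, hv, dg, hS.1.ne_zero]
    | art =>
      have hp1 : p - 1 ≠ 0 := by
        have := (Fact.out : p.Prime).two_le
        omega
      simp [br, hom, hv, dg, hp, hp1]
  · have e1 : ∏ i ∈ range (dg p S), br (x i) v =
        v.2 ^ dg p S * (gp p S y).eval (v.1 / v.2) := by
      rw [← h0, Polynomial.eval_prod]
      have : v.2 ^ dg p S = ∏ _i ∈ range (dg p S), v.2 := by simp
      rw [this, ← prod_mul_distrib]
      refine prod_congr rfl fun i _ => ?_
      simp only [br, Polynomial.eval_sub, Polynomial.eval_X, Polynomial.eval_C]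
      field_simp
    rw [e1]
    cases S with
    | mob a b c d => exact absurd trivial hT
    | frb => exact absurd trivial hT
    | pow l =>
      simp only [br, hom, dg, gp, Polynomial.eval_sub, Polynomial.eval_pow, Polynomial.eval_X,
        Polynomial.eval_C]
      rw [div_pow, mul_sub, mul_div_cancel₀ _ (pow_ne_zero _ hv)]
      ring
    | art =>
      obtain ⟨k, hk⟩ : ∃ k, p = k + 1 := ⟨p - 1, by
        have := (Fact.out : p.Prime).two_le
        omega⟩
      simp only [br, hom, dg, gp, Polynomial.eval_sub, Polynomial.eval_pow, Polynomial.eval_X,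
        Polynomial.eval_C, Polynomial.eval_add]
      rw [div_pow, mul_sub, mul_div_cancel₀ _ (pow_ne_zero _ hv)]
      have : v.2 ^ p * (v.1 / v.2) = v.1 * v.2 ^ (p - 1) := by
        rw [hk, Nat.add_sub_cancel, pow_succ]
        field_simp
      rw [mul_add, this]
      ring

/-- the polynomial in `t` attached to `b + t a` -/
noncomputable def hp (p : ℕ) : Stp K → K → K × K → K × K → Polynomial K
  | .pow l, y, b, a => (Polynomial.C b.1 + Polynomial.X * Polynomial.C a.1) ^ l -
      Polynomial.C y * (Polynomial.C b.2 + Polynomial.X * Polynomial.C a.2) ^ l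
  | .art, y, b, a => (Polynomial.C b.1 + Polynomial.X * Polynomial.C a.1) ^ p -
      (Polynomial.C b.1 + Polynomial.X * Polynomial.C a.1) *
        (Polynomial.C b.2 + Polynomial.X * Polynomial.C a.2) ^ (p - 1) -
      Polynomial.C y * (Polynomial.C b.2 + Polynomial.X * Polynomial.C a.2) ^ p
  | _, _, _, _ => 0

theorem hp_eval {S : Stp K} (hT : ¬ Triv S) (y t : K) (b a : K × K) :
    (hp p S y b a).eval t = br y (hom p S (b.1 + t * a.1, b.2 + t * a.2)) := by
  cases S with
  | mob a b c d => exact absurd trivial hT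
  | frb => exact absurd trivial hT
  | pow l => simp [hp, br, hom, mul_comm t]
  | art => simp [hp, br, hom, mul_comm t]

theorem hp_der {S : Stp K} (hT : ¬ Triv S) (y : K) (b a : K × K) :
    (Polynomial.derivative (hp p S y b a)).eval 0 = br y (der p S b a) := by
  cases S with
  | mob a b c d => exact absurd trivial hT
  | frb => exact absurd trivial hT
  | pow l => simp [hp, br, der, Polynomial.derivative_pow]
  | art =>
    have hp2 := (Fact.out : p.Prime).two_le
    have h1 : ((p - 1 : ℕ) : K) = -1 := by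
      rw [Nat.cast_sub (by omega), CharP.cast_eq_zero, Nat.cast_one, zero_sub]
    have h2 : p - 1 - 1 = p - 2 := by omega
    simp [hp, br, der, Polynomial.derivative_pow, h1, h2]
    ring

theorem sum_br [Infinite K] {S : Stp K} (hS : Ok p f S) (hT : ¬ Triv S) {y : K} {x : ℕ → K}
    (hinj : Set.InjOn x (range (dg p S))) (hx : ∀ i < dg p S, Rel p S (x i) y) (b a : K × K)
    (hb : ∀ i < dg p S, br (x i) b ≠ 0) :
    (br y (hom p S b)) * ∑ i ∈ range (dg p S), br (x i) a / br (x i) b =
      br y (der p S b a) := by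
  have h1 : ∏ i ∈ range (dg p S), (Polynomial.C (br (x i) b) + Polynomial.X *
      Polynomial.C (br (x i) a)) = hp p S y b a := by
    refine Polynomial.funext fun t => ?_
    rw [hp_eval hT, ← prod_br hS hT hinj hx, Polynomial.eval_prod]
    refine prod_congr rfl fun i _ => ?_
    simp only [br, Polynomial.eval_add, Polynomial.eval_mul, Polynomial.eval_X,
      Polynomial.eval_C]
    ring
  rw [← hp_der hT, ← h1, eval_derivative_prod _ _ _ fun i hi => hb i (mem_range.1 hi),
    prod_br hS hT hinj hx]

/-- the type of the step -/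
def sty : Stp K → Ty
  | .pow l => .mul l
  | _ => .add

theorem okTy_sty {S : Stp K} (hS : Ok p f S) : OkTy p f (sty S) := by
  cases S with
  | mob a b c d => trivial
  | frb => trivial
  | pow l => exact ⟨hS.1.pos, hS.2.2⟩
  | art => trivial

/-- the norm or trace of a condition -/
theorem nm_val [Infinite K] {S : Stp K} (hS : Ok p f S) (hT : ¬ Triv S) {y : K} {x : ℕ → K}
    (hinj : Set.InjOn x (range (dg p S))) (hx : ∀ i < dg p S, Rel p S (x i) y)
    (hy : fr p f 1 y ≠ y) (τ : Ty) {c : (K × K) × (K × K)} (hc : Good p f c) :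
    nm τ (dg p S) (fun i => val c (x i)) = val (tr p τ S c) y := by
  cases τ with
  | mul l =>
    simp only [nm, tr, val]
    rw [prod_div_distrib, prod_br hS hT hinj hx, prod_br hS hT hinj hx]
  | add =>
    simp only [nm, tr, val]
    have h1 : br y (hom p S c.2) ≠ 0 := br_ne hy (fxd_hom hS hc.2.1) (hom_ne hS hc.2.2)
    rw [eq_div_iff h1, mul_comm]
    exact sum_br hS hT hinj hx _ _ fun i hi =>
      br_ne (rel_clean hS (hx i hi) hy) hc.2.1 hc.2.2

/-! ### The points above `y` -/

/-- If the symbol of `y` is trivial then `fr D x = x`. -/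
theorem neu_iff {S : Stp K} (hS : Ok p f S) (hT : ¬ Triv S) {x y : K} (h : Rel p S x y)
    (hy : fr p f 1 y ≠ y) (D : ℕ) : neu p f (sty S) D y ↔ fr p f D x = x := by
  cases S with
  | mob a b c d => exact absurd trivial hT
  | frb => exact absurd trivial hT
  | pow l =>
    have h' : x ^ l = y := h
    have hx : x ≠ 0 := fun h0 => rel_clean hS h hy (by rw [h0, map_zero])
    simp only [sty, neu]
    rw [← h', ← pow_mul, Nat.mul_div_cancel' (dvd_pow_sub_one hS.2.2 D), fr_def]
    have h1 : p ^ (f * D) = p ^ (f * D) - 1 + 1 :=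
      (Nat.sub_add_cancel (Nat.one_le_pow _ _ (Fact.out : p.Prime).pos)).symm
    conv_rhs => rw [h1, pow_succ]
    rw [mul_eq_right₀ hx]
  | art =>
    have h' : x ^ p - x = y := h
    simp only [sty, neu]
    have h1 : ∀ N, ∑ i ∈ range N, y ^ p ^ i = x ^ p ^ N - x := by
      intro N
      induction N with
      | zero => simp
      | succ N ih =>
        rw [sum_range_succ, ih, ← h', sub_pow_char_pow, ← pow_mul, ← pow_succ']
        ring
    rw [h1, fr_def, sub_eq_zero]

/-- The period of the points above `y` when the symbol of `y` is not trivial. -/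
theorem inert_per {S : Stp K} (hS : Ok p f S) (hT : ¬ Triv S) {x y : K} (h : Rel p S x y)
    (hy : fr p f 1 y ≠ y) (hn : ¬ neu p f (sty S) (per p f y) y) :
    per p f x = per p f y * dg p S := by
  rw [neu_iff hS hT h hy] at hn
  set D := per p f y with hD
  have h1 : D ∣ per p f x := per_dvd_of_forall p f fun n hx => by
    have h1 := rel_fr hS h n
    rw [hx] at h1
    exact rel_fun h1 h
  have hfr : Rel p S (fr p f D x) y := by
    have := rel_fr hS h D
    rwa [fr_per] at this
  have h2 : fr p f (D * dg p S) x = x := by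
    cases S with
    | mob a b c d => exact absurd trivial hT
    | frb => exact absurd trivial hT
    | pow l =>
      have h' : x ^ l = y := h
      have hx : x ≠ 0 := fun h0 => rel_clean hS h hy (by rw [h0, map_zero])
      have hu : (fr p f D x / x) ^ l = 1 := by
        have e : (fr p f D x) ^ l = y := hfr
        rw [div_pow, e, h', div_self (h' ▸ pow_ne_zero _ hx)]
      have hu1 : fr p f 1 (fr p f D x / x) = fr p f D x / x := by
        obtain ⟨k, hk⟩ := hS.2.2
        have e : p ^ (f * 1) = l * k + 1 := by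
          rw [mul_one, ← hk, Nat.sub_add_cancel (Nat.one_le_pow _ _ (Fact.out : p.Prime).pos)]
        rw [fr_def, e, pow_succ, pow_mul, hu, one_pow, one_mul]
      have h3 : ∀ i, fr p f (D * i) x = (fr p f D x / x) ^ i * x := by
        intro i
        induction i with
        | zero => simp
        | succ i ih =>
          rw [mul_add, mul_one, add_comm, ← fr_fr, ih, map_mul, map_pow,
            fr_of_fix p f hu1, pow_succ, mul_assoc, div_mul_cancel₀ _ hx]
      show fr p f (D * l) x = x
      rw [h3, hu, one_mul]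
    | art =>
      have h' : x ^ p - x = y := h
      have e : (fr p f D x) ^ p - fr p f D x = y := hfr
      have hu : (fr p f D x - x) ^ p = fr p f D x - x := by
        rw [sub_pow_char]
        linear_combination e - h'
      have hu0 : ∀ n, (fr p f D x - x) ^ p ^ n = fr p f D x - x := by
        intro n
        induction n with
        | zero => simp
        | succ n ih => rw [pow_succ, pow_mul, ih, hu]
      have hu1 : fr p f D (fr p f D x - x) = fr p f D x - x := by rw [fr_def, hu0]
      have h3 : ∀ i : ℕ, fr p f (D * i) x = i * (fr p f D x - x) + x := by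
        intro i
        induction i with
        | zero => simp
        | succ i ih =>
          rw [mul_add, mul_one, add_comm, ← fr_fr, ih, map_add, map_mul, map_natCast, hu1]
          push_cast
          ring
      show fr p f (D * p) x = x
      rw [h3, CharP.cast_eq_zero, zero_mul, zero_add]
  have h3 : per p f x ∣ D * dg p S := (fr_eq_iff p f _ _).1 h2
  have hprime : (dg p S).Prime := by
    cases S with
    | mob a b c d => exact absurd trivial hT
    | frb => exact absurd trivial hT
    | pow l => exact hS.1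
    | art => exact (Fact.out : p.Prime)
  obtain ⟨m, hm⟩ := h1
  have hD0 : D ≠ 0 := by
    intro h0
    apply hn
    rw [h0, fr_zero]
  rw [hm] at h3
  have h4 : m ∣ dg p S := Nat.dvd_of_mul_dvd_mul_left (Nat.pos_of_ne_zero hD0) h3
  rcases (Nat.dvd_prime hprime).1 h4 with h5 | h5
  · exfalso
    apply hn
    rw [fr_eq_iff, hm, h5, mul_one]
  · rw [hm, h5]

/-- The conditions at a point above `y` when the symbol of `y` is not trivial. -/
theorem inert_neu [Infinite K] {S : Stp K} (hS : Ok p f S) (hT : ¬ Triv S) {x y : K}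
    (h : Rel p S x y) (hy : fr p f 1 y ≠ y) (hn : ¬ neu p f (sty S) (per p f y) y)
    {τ : Ty} (hτ : OkTy p f τ) {c : (K × K) × (K × K)} (hc : Good p f c) :
    neu p f τ (per p f x) (val c x) ↔ neu p f τ (per p f y) (val (tr p τ S c) y) := by
  have hper := inert_per hS hT h hy hn
  have hD0 : per p f y ≠ 0 := by
    intro h0
    apply hn
    rw [neu_iff hS hT h hy, h0, fr_zero]
  rw [hper, neu_nm hτ]
  have h1 : (fun i => fr p f (per p f y * i) (val c x)) =
      fun i => val c (fr p f (per p f y * i) x) := funext fun i => fr_val hc _ _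
  rw [h1, nm_val hS hT ?_ ?_ hy τ hc]
  · have key : ∀ i j : ℕ, i ≤ j → j < dg p S → fr p f (per p f y * i) x =
        fr p f (per p f y * j) x → i = j := by
      intro i j hij hj he
      have h2 : per p f y * j = per p f y * i + per p f y * (j - i) := by
        rw [← mul_add, Nat.add_sub_cancel' hij]
      rw [h2, ← fr_fr] at he
      have h3 := fr_inj p f _ he
      have h4 := (fr_eq_iff p f _ _).1 h3.symm
      rw [hper] at h4
      have h5 := Nat.dvd_of_mul_dvd_mul_left (Nat.pos_of_ne_zero hD0) h4
      have h6 := Nat.eq_zero_of_dvd_of_lt h5 (by omega)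
      omega
    intro i hi j hj he
    have hi' : i < dg p S := mem_range.1 hi
    have hj' : j < dg p S := mem_range.1 hj
    rcases le_total i j with hij | hij
    · exact key i j hij hj' he
    · exact (key j i hij hi' he.symm).symm
  · intro i _
    have h2 := rel_fr hS h (per p f y * i)
    rwa [(fr_eq_iff p f _ y).2 (dvd_mul_right _ _)] at h2

/-- The step splits when the symbol is trivial. -/
theorem split {S : Stp K} [IsAlgClosed K] (hS : Ok p f S) (hT : ¬ Triv S) {x y : K}
    (h : Rel p S x y) (hy : fr p f 1 y ≠ y) (hn : neu p f (sty S) (per p f y) y) :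
    ∃ x', Rel p S x' y ∧ ¬ cj p f x x' := by
  rw [neu_iff hS hT h hy] at hn
  have h0 : ∀ x', Rel p S x' y → x' ≠ x → ¬ cj p f x x' := by
    rintro x' hx' hne ⟨n, hcj⟩
    have h1 := rel_fr hS h n
    rw [hcj] at h1
    have h2 := rel_fun h1 hx'
    rw [fr_eq_iff] at h2
    rw [fr_eq_iff] at hn
    have h3 := (fr_eq_iff p f n x).2 (hn.trans h2)
    exact hne (hcj.symm.trans h3)
  cases S with
  | mob a b c d => exact absurd trivial hT
  | frb => exact absurd trivial hT
  | pow l =>
    have h' : x ^ l = y := h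
    have hx : x ≠ 0 := fun h0 => rel_clean hS h hy (by rw [h0, map_zero])
    have : NeZero (l : K) := ⟨hS.2.1⟩
    obtain ⟨w, hw⟩ := HasEnoughRootsOfUnity.exists_primitiveRoot K l
    have hw1 : w ≠ 1 := hw.ne_one hS.1.one_lt
    refine ⟨w * x, ?_, h0 _ ?_ ?_⟩
    · show (w * x) ^ l = y
      rw [mul_pow, hw.pow_eq_one, one_mul, h']
    · show (w * x) ^ l = y
      rw [mul_pow, hw.pow_eq_one, one_mul, h']
    · intro h1
      exact hw1 (mul_right_cancel₀ hx (h1.trans (one_mul x).symm))
  | art =>
    have h' : x ^ p - x = y := h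
    have h1 : Rel p .art (x + 1) y := by
      show (x + 1) ^ p - (x + 1) = y
      rw [add_pow_char, one_pow, ← h']
      ring
    exact ⟨x + 1, h1, h0 _ h1 fun h2 => one_ne_zero (add_eq_left.1 h2)⟩

theorem rel_exists [IsAlgClosed K] {S : Stp K} (hS : Ok p f S) {y : K}
    (hy : fr p f 1 y ≠ y) : ∃ x, Rel p S x y := by
  have hp0 : 0 < p := (Fact.out : p.Prime).pos
  cases S with
  | mob a b c d =>
    obtain ⟨ha, hb, hc, hd, hdet⟩ := hS
    have h1 : a - y * c ≠ 0 := by
      intro h1
      have h2 : a = y * c := sub_eq_zero.1 h1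
      by_cases h3 : c = 0
      · apply hdet
        rw [h2, h3]
        ring
      · apply hy
        have h4 : y = a / c := (eq_div_iff h3).2 h2.symm
        rw [h4, map_div₀, ha, hc]
    have h2 : c * ((y * d - b) / (a - y * c)) + d = (a * d - b * c) / (a - y * c) := by
      rw [eq_div_iff h1, add_mul, mul_assoc, div_mul_cancel₀ _ h1]
      ring
    refine ⟨(y * d - b) / (a - y * c), ?_, ?_⟩
    · rw [h2]
      exact div_ne_zero hdet h1
    · have h3 : a * ((y * d - b) / (a - y * c)) + b = (y * (a * d - b * c)) / (a - y * c) := by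
        rw [eq_div_iff h1, add_mul, mul_assoc, div_mul_cancel₀ _ h1]
        ring
      rw [h2, h3, mul_div_assoc]
  | frb => exact IsAlgClosed.exists_pow_nat_eq y hp0
  | pow l => exact IsAlgClosed.exists_pow_nat_eq y hS.1.pos
  | art =>
    have hT : ¬ Triv (Stp.art : Stp K) := fun h => h
    obtain ⟨h1, h2⟩ := gp_monic (p := p) (f := f) (S := (Stp.art : Stp K)) trivial hT y
    obtain ⟨x, hx⟩ := IsAlgClosed.exists_root (gp p (Stp.art : Stp K) y) (by
      rw [Polynomial.degree_eq_natDegree h1.ne_zero, h2]
      exact_mod_cast hp0.ne')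
    refine ⟨x, ?_⟩
    have h3 : x ^ p - (x + y) = 0 := by
      simpa [gp] using hx
    show x ^ p - x = y
    linear_combination h3

end Pool.Agent.FDT
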