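import Pool.Agent.FDT.Steps

/-!
# The tree of preimages

The conditions attached to a word of elementary steps, and the dichotomy: either some point of the
tree is settled, and the periods above it grow exponentially, or the number of conjugacy classes
grows exponentially.
-/

set_option autoImplicit false
set_option linter.unusedSectionVars false

open Finset

namespace Pool.Agent.FDT

variable {K : Type*} [Field K] (p : ℕ) [Fact p.Prime] [CharP K p] (f : ℕ)

/-- chains: the first step of the list is the lowest one -/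
def Ch : List (Stp K) → K → K → Prop
  | [], x, y => x = y
  | S :: W, x, y => ∃ z, Rel p S z y ∧ Ch W x z

/-- the conditions of a word -/
def cnd : List (Stp K) → Set (Ty × ((K × K) × (K × K)))
  | [] => ∅
  | S :: W => {t | ¬ Triv S ∧ t = (sty S, cid)} ∪
      (fun t => (t.1, tr p t.1 S t.2)) '' cnd W

/-- the separable degree of a word -/
def DG (W : List (Stp K)) : ℕ := (W.map (dg p)).prod

/-- the powers of a word -/
def pw (L : List (Stp K)) (n : ℕ) : List (Stp K) := (List.replicate n L).flatten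

variable {p f}

theorem ch_append (W W' : List (Stp K)) (x y : K) :
    Ch p (W ++ W') x y ↔ ∃ z, Ch p W z y ∧ Ch p W' x z := by
  induction W generalizing y with
  | nil => exact ⟨fun h => ⟨y, rfl, h⟩, fun ⟨z, h1, h2⟩ => by rw [← (h1 : z = y)]; exact h2⟩
  | cons S W ih =>
    constructor
    · rintro ⟨z, h1, h2⟩
      obtain ⟨w, h3, h4⟩ := (ih z).1 h2
      exact ⟨w, ⟨z, h1, h3⟩, h4⟩
    · rintro ⟨w, ⟨z, h1, h3⟩, h4⟩
      exact ⟨z, h1, (ih z).2 ⟨w, h3, h4⟩⟩

theorem pw_zero (L : List (Stp K)) : pw L 0 = [] := rfl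

theorem pw_one (L : List (Stp K)) : pw L 1 = L := by simp [pw]

theorem pw_add (L : List (Stp K)) (n m : ℕ) : pw L (n + m) = pw L n ++ pw L m := by
  rw [pw, List.replicate_add, List.flatten_append]
  rfl

theorem mem_pw {L : List (Stp K)} {n : ℕ} {S : Stp K} (h : S ∈ pw L n) : S ∈ L := by
  obtain ⟨l, hl, hS⟩ := List.mem_flatten.1 h
  rw [List.eq_of_mem_replicate hl] at hS
  exact hS

theorem dg_pw (L : List (Stp K)) (n : ℕ) : DG p (pw L n) = DG p L ^ n := by
  induction n with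
  | zero => simp [pw_zero, DG]
  | succ n ih =>
    rw [pw_add, pw_one, pow_succ, ← ih, DG, DG, DG, List.map_append, List.prod_append]

theorem ch_clean {W : List (Stp K)} (hW : ∀ S ∈ W, Ok p f S) {x y : K} (h : Ch p W x y)
    (hy : fr p f 1 y ≠ y) : fr p f 1 x ≠ x := by
  induction W generalizing y with
  | nil => rw [show x = y from h]; exact hy
  | cons S W ih =>
    obtain ⟨z, h1, h2⟩ := h
    exact ih (fun S' h => hW S' (List.mem_cons_of_mem _ h)) h2
      (rel_clean (hW S List.mem_cons_self) h1 hy)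

theorem ch_fr {W : List (Stp K)} (hW : ∀ S ∈ W, Ok p f S) {x y : K} (h : Ch p W x y) (n : ℕ) :
    Ch p W (fr p f n x) (fr p f n y) := by
  induction W generalizing y with
  | nil => exact congrArg _ (show x = y from h)
  | cons S W ih =>
    obtain ⟨z, h1, h2⟩ := h
    exact ⟨fr p f n z, rel_fr (hW S List.mem_cons_self) h1 n,
      ih (fun S' h => hW S' (List.mem_cons_of_mem _ h)) h2⟩

theorem ch_fun {W : List (Stp K)} {x y y' : K} (h : Ch p W x y) (h' : Ch p W x y') :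
    y = y' := by
  induction W generalizing y y' with
  | nil => exact (show x = y from h).symm.trans h'
  | cons S W ih =>
    obtain ⟨z, h1, h2⟩ := h
    obtain ⟨z', h1', h2'⟩ := h'
    have h3 := ih h2 h2'
    rw [h3] at h1
    exact rel_fun h1 h1'

theorem ch_exists [IsAlgClosed K] {W : List (Stp K)} (hW : ∀ S ∈ W, Ok p f S) {y : K}
    (hy : fr p f 1 y ≠ y) : ∃ x, Ch p W x y := by
  induction W generalizing y with
  | nil => exact ⟨y, rfl⟩
  | cons S W ih =>
    have hS := hW S List.mem_cons_self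
    obtain ⟨z, hz⟩ := rel_exists hS hy
    obtain ⟨x, hx⟩ := ih (fun S' h => hW S' (List.mem_cons_of_mem _ h)) (rel_clean hS hz hy)
    exact ⟨x, z, hz, hx⟩

theorem cj_of_ch {W : List (Stp K)} (hW : ∀ S ∈ W, Ok p f S) {x x' y y' : K}
    (h : Ch p W x y) (h' : Ch p W x' y') (hc : cj p f x x') : cj p f y y' := by
  obtain ⟨n, hn⟩ := hc
  have h1 := ch_fr hW h n
  rw [hn] at h1
  exact ⟨n, ch_fun h1 h'⟩

theorem dg_triv {S : Stp K} (hT : Triv S) : dg p S = 1 := by
  cases S with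
  | mob a b c d => rfl
  | frb => rfl
  | pow l => exact hT.elim
  | art => exact hT.elim

theorem cnd_good {W : List (Stp K)} (hW : ∀ S ∈ W, Ok p f S) {t : Ty × ((K × K) × (K × K))}
    (ht : t ∈ cnd p W) : (∃ S ∈ W, t.1 = sty S) ∧ OkTy p f t.1 ∧ Good p f t.2 := by
  induction W generalizing t with
  | nil => exact ht.elim
  | cons S W ih =>
    have hS := hW S List.mem_cons_self
    rcases ht with ⟨-, rfl⟩ | ⟨t', ht', rfl⟩
    · exact ⟨⟨S, List.mem_cons_self, rfl⟩, okTy_sty hS, good_cid⟩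
    · obtain ⟨⟨S', h0, h1⟩, h2, h3⟩ := ih (fun S' h => hW S' (List.mem_cons_of_mem _ h)) ht'
      exact ⟨⟨S', List.mem_cons_of_mem _ h0, h1⟩, h2, good_tr hS _ h3⟩

/-- A condition which holds at `y` trivially. -/
def ntr (p : ℕ) [Fact p.Prime] [CharP K p] (f : ℕ) (t : Ty × ((K × K) × (K × K))) (y : K) :
    Prop := neu p f t.1 (per p f y) (val t.2 y)

theorem ntr_tr [IsAlgClosed K] {S : Stp K} (hS : Ok p f S) {x y : K} (h : Rel p S x y)
    (hy : fr p f 1 y ≠ y) (hn : ¬ Triv S → ¬ neu p f (sty S) (per p f y) y)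
    {t : Ty × ((K × K) × (K × K))} (h1 : OkTy p f t.1) (h2 : Good p f t.2) :
    ntr p f t x ↔ ntr p f (t.1, tr p t.1 S t.2) y := by
  by_cases hT : Triv S
  · rw [ntr, ntr, triv_per hS hT h]
    exact triv_neu hS hT h _ _ _
  · have : Infinite K := IsAlgClosed.instInfinite
    exact inert_neu hS hT h hy (hn hT) h1 h2

theorem per_step [IsAlgClosed K] {S : Stp K} (hS : Ok p f S) {x y : K} (h : Rel p S x y)
    (hy : fr p f 1 y ≠ y) (hn : ¬ Triv S → ¬ neu p f (sty S) (per p f y) y) :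
    per p f x = per p f y * dg p S := by
  by_cases hT : Triv S
  · rw [triv_per hS hT h, dg_triv hT, mul_one]
  · exact inert_per hS hT h hy (hn hT)

/-- The settled points. -/
theorem settled [IsAlgClosed K] {W : List (Stp K)} (hW : ∀ S ∈ W, Ok p f S) {x y : K}
    (hy : fr p f 1 y ≠ y) (hn : ∀ t ∈ cnd p W, ¬ ntr p f t y) (h : Ch p W x y) :
    per p f x = per p f y * DG p W := by
  induction W generalizing y with
  | nil => rw [show x = y from h]; simp [DG]
  | cons S W ih =>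
    have hS := hW S List.mem_cons_self
    have hW' : ∀ S' ∈ W, Ok p f S' := fun S' h => hW S' (List.mem_cons_of_mem _ h)
    obtain ⟨z, h1, h2⟩ := h
    have h3 : ¬ Triv S → ¬ neu p f (sty S) (per p f y) y := fun hT => by
      have h4 := hn (sty S, cid) (Or.inl ⟨hT, rfl⟩)
      rwa [ntr, val_cid] at h4
    have h5 := ih hW' (rel_clean hS h1 hy) (fun t ht => by
      obtain ⟨-, ht1, ht2⟩ := cnd_good hW' ht
      rw [ntr_tr hS h1 hy h3 ht1 ht2]
      exact hn _ (Or.inr ⟨t, ht, rfl⟩)) h2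
    rw [h5, per_step hS h1 hy h3, mul_assoc]
    congr 1

/-- The points which are not settled. -/
theorem unsettled [IsAlgClosed K] {W : List (Stp K)} (hW : ∀ S ∈ W, Ok p f S) {y : K}
    (hy : fr p f 1 y ≠ y) (hn : ∃ t ∈ cnd p W, ntr p f t y) :
    ∃ x x', Ch p W x y ∧ Ch p W x' y ∧ ¬ cj p f x x' := by
  induction W generalizing y with
  | nil =>
    obtain ⟨t, ht, -⟩ := hn
    exact ht.elim
  | cons S W ih =>
    have hS := hW S List.mem_cons_self
    have hW' : ∀ S' ∈ W, Ok p f S' := fun S' h => hW S' (List.mem_cons_of_mem _ h)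
    obtain ⟨z, hz⟩ := rel_exists hS hy
    have hzc := rel_clean hS hz hy
    by_cases h3 : ¬ Triv S → ¬ neu p f (sty S) (per p f y) y
    · obtain ⟨t, ht, hnt⟩ := hn
      rcases ht with ⟨hT, rfl⟩ | ⟨t', ht', rfl⟩
      · rw [ntr, val_cid] at hnt
        exact (h3 hT hnt).elim
      · obtain ⟨-, ht1, ht2⟩ := cnd_good hW' ht'
        have h4 := (ntr_tr hS hz hy h3 ht1 ht2).2 hnt
        obtain ⟨x, x', hx, hx', hcj⟩ := ih hW' hzc ⟨t', ht', h4⟩
        exact ⟨x, x', ⟨z, hz, hx⟩, ⟨z, hz, hx'⟩, hcj⟩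
    · push Not at h3
      obtain ⟨hT, h4⟩ := h3
      obtain ⟨z', hz', hcj⟩ := split hS hT hz hy h4
      obtain ⟨x, hx⟩ := ch_exists hW' hzc
      obtain ⟨x', hx'⟩ := ch_exists hW' (rel_clean hS hz' hy)
      exact ⟨x, x', ⟨z, hz, hx⟩, ⟨z', hz', hx'⟩, fun hc => hcj (cj_of_ch hW' hx hx' hc)⟩

/-! ### Finiteness of the set of conditions -/

theorem fixed_finite (hf : 0 < f) : {x : K | fr p f 1 x = x}.Finite := by
  classical
  have hp : 1 < p ^ f := Nat.one_lt_pow hf.ne' (Fact.out : p.Prime).one_lt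
  have h0 : (Polynomial.X ^ p ^ f - Polynomial.X : Polynomial K) ≠ 0 :=
    FiniteField.X_pow_card_sub_X_ne_zero K hp
  refine (Polynomial.X ^ p ^ f - Polynomial.X : Polynomial K).roots.toFinset.finite_toSet.subset ?_
  intro x hx
  have hx' : x ^ p ^ f = x := by
    have : fr p f 1 x = x := hx
    rwa [fr_def, mul_one] at this
  rw [Finset.mem_coe, Multiset.mem_toFinset, Polynomial.mem_roots h0]
  simp [hx']

theorem good_finite (hf : 0 < f) : {c : (K × K) × (K × K) | Good p f c}.Finite := by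
  have h1 := fixed_finite (K := K) (p := p) hf
  refine ((h1.prod h1).prod (h1.prod h1)).subset ?_
  rintro c ⟨h2, h3, -⟩
  exact ⟨⟨h2.1, h2.2⟩, ⟨h3.1, h3.2⟩⟩

theorem cnd_append (W W' : List (Stp K)) : cnd p W ⊆ cnd p (W ++ W') := by
  induction W with
  | nil => exact Set.empty_subset _
  | cons S W ih => exact Set.union_subset_union_right _ (Set.image_mono ih)

theorem cnd_stab (hf : 0 < f) {L : List (Stp K)} (hL : ∀ S ∈ L, Ok p f S) :
    ∃ n₀, ∀ n, cnd p (pw L n) ⊆ cnd p (pw L n₀) := by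
  have hmono : ∀ n m, n ≤ m → cnd p (pw L n) ⊆ cnd p (pw L m) := fun n m h => by
    obtain ⟨k, rfl⟩ := Nat.exists_eq_add_of_le h
    rw [pw_add]
    exact cnd_append _ _
  have hfin : (⋃ n, cnd p (pw L n)).Finite := by
    have h1 : {t : Ty | ∃ S ∈ L, t = sty S}.Finite := by
      refine (L.map sty).finite_toSet.subset ?_
      rintro t ⟨S, hS, rfl⟩
      exact List.mem_map_of_mem hS
    refine (h1.prod (good_finite (K := K) (p := p) hf)).subset ?_
    refine Set.iUnion_subset fun n t ht => ?_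
    obtain ⟨⟨S, hS, h2⟩, -, h3⟩ := cnd_good (fun S hS => hL S (mem_pw hS)) ht
    exact ⟨⟨S, mem_pw hS, h2⟩, h3⟩
  have h2 : ∀ t ∈ (⋃ n, cnd p (pw L n)), ∃ n, t ∈ cnd p (pw L n) := fun t ht =>
    Set.mem_iUnion.1 ht
  choose! g hg using h2
  refine ⟨hfin.toFinset.sup g, fun n t ht => ?_⟩
  have h3 : t ∈ ⋃ n, cnd p (pw L n) := Set.mem_iUnion.2 ⟨n, ht⟩
  exact hmono _ _ (Finset.le_sup (hfin.mem_toFinset.2 h3)) (hg t h3)

/-! ### The dichotomy -/

/-- Pairwise non-conjugate points above `α`. -/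
def Fam (p : ℕ) [Fact p.Prime] [CharP K p] (f : ℕ) (W : List (Stp K)) (α : K)
    (s : Finset K) : Prop :=
  (∀ x ∈ s, Ch p W x α) ∧ ∀ x ∈ s, ∀ x' ∈ s, cj p f x x' → x = x'

theorem fam_lift [IsAlgClosed K] {W W' : List (Stp K)} (hW : ∀ S ∈ W, Ok p f S)
    (hW' : ∀ S ∈ W', Ok p f S) {α : K} (hα : fr p f 1 α ≠ α) {s : Finset K}
    (hs : Fam p f W α s) : ∃ s' : Finset K, s'.card = s.card ∧ Fam p f (W ++ W') α s' := by
  classical
  have h1 : ∀ y ∈ s, ∃ x, Ch p W' x y := fun y hy =>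
    ch_exists hW' (ch_clean hW (hs.1 y hy) hα)
  choose! E hE using h1
  refine ⟨s.image E, ?_, ?_, ?_⟩
  · refine card_image_of_injOn fun y hy y' hy' h => ?_
    refine hs.2 y hy y' hy' (cj_of_ch hW' (hE y hy) (hE y' hy') ?_)
    rw [show E y = E y' from h]
    exact cj_refl _
  · intro x hx
    obtain ⟨y, hy, rfl⟩ := mem_image.1 hx
    exact (ch_append _ _ _ _).2 ⟨y, hs.1 y hy, hE y hy⟩
  · intro x hx x' hx' hc
    obtain ⟨y, hy, rfl⟩ := mem_image.1 hx
    obtain ⟨y', hy', rfl⟩ := mem_image.1 hx'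
    rw [hs.2 y hy y' hy' (cj_of_ch hW' (hE y hy) (hE y' hy') hc)]

theorem fam_double {W W' : List (Stp K)} (hW' : ∀ S ∈ W', Ok p f S) {α : K} {s : Finset K}
    (hs : Fam p f W α s)
    (h2 : ∀ y ∈ s, ∃ x x', Ch p W' x y ∧ Ch p W' x' y ∧ ¬ cj p f x x') (H : AllPer K p f) :
    ∃ s' : Finset K, s'.card = 2 * s.card ∧ Fam p f (W ++ W') α s' := by
  classical
  choose! A B hA hB hAB using h2
  have e1 : ∀ y ∈ s, ∀ y' ∈ s, cj p f (A y) (A y') → y = y' := fun y hy y' hy' h =>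
    hs.2 y hy y' hy' (cj_of_ch hW' (hA y hy) (hA y' hy') h)
  have e2 : ∀ y ∈ s, ∀ y' ∈ s, cj p f (B y) (B y') → y = y' := fun y hy y' hy' h =>
    hs.2 y hy y' hy' (cj_of_ch hW' (hB y hy) (hB y' hy') h)
  have e3 : ∀ y ∈ s, ∀ y' ∈ s, ¬ cj p f (A y) (B y') := fun y hy y' hy' h => by
    have h3 := hs.2 y hy y' hy' (cj_of_ch hW' (hA y hy) (hB y' hy') h)
    rw [h3] at h
    exact hAB y' hy' h
  have hd : Disjoint (s.image A) (s.image B) := by
    rw [disjoint_left]
    intro x hx hx'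
    obtain ⟨y, hy, rfl⟩ := mem_image.1 hx
    obtain ⟨y', hy', h⟩ := mem_image.1 hx'
    exact e3 y hy y' hy' (h ▸ cj_refl _)
  refine ⟨s.image A ∪ s.image B, ?_, ?_, ?_⟩
  · rw [card_union_of_disjoint hd, card_image_of_injOn, card_image_of_injOn, two_mul]
    · exact fun y hy y' hy' h => e2 y hy y' hy' ((show B y = B y' from h) ▸ cj_refl _)
    · exact fun y hy y' hy' h => e1 y hy y' hy' ((show A y = A y' from h) ▸ cj_refl _)
  · intro x hx
    rcases mem_union.1 hx with hx | hx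
    · obtain ⟨y, hy, rfl⟩ := mem_image.1 hx
      exact (ch_append _ _ _ _).2 ⟨y, hs.1 y hy, hA y hy⟩
    · obtain ⟨y, hy, rfl⟩ := mem_image.1 hx
      exact (ch_append _ _ _ _).2 ⟨y, hs.1 y hy, hB y hy⟩
  · intro x hx x' hx' hc
    rcases mem_union.1 hx with hx | hx <;> rcases mem_union.1 hx' with hx' | hx'
    · obtain ⟨y, hy, rfl⟩ := mem_image.1 hx
      obtain ⟨y', hy', rfl⟩ := mem_image.1 hx'
      rw [e1 y hy y' hy' hc]
    · obtain ⟨y, hy, rfl⟩ := mem_image.1 hx
      obtain ⟨y', hy', rfl⟩ := mem_image.1 hx'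
      exact (e3 y hy y' hy' hc).elim
    · obtain ⟨y, hy, rfl⟩ := mem_image.1 hx
      obtain ⟨y', hy', rfl⟩ := mem_image.1 hx'
      exact (e3 y' hy' y hy (cj_symm H hc)).elim
    · obtain ⟨y, hy, rfl⟩ := mem_image.1 hx
      obtain ⟨y', hy', rfl⟩ := mem_image.1 hx'
      rw [e2 y hy y' hy' hc]

/-- **The dichotomy.** -/
theorem dich [IsAlgClosed K] (hf : 0 < f) (H : AllPer K p f) {L : List (Stp K)}
    (hL : ∀ S ∈ L, Ok p f S) {α : K} (hα : fr p f 1 α ≠ α) :
    (∃ j D, 0 < D ∧ ∀ n, ∃ x, Ch p (pw L (j + n)) x α ∧ per p f x = D * DG p L ^ n) ∨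
    ∃ n₀, 0 < n₀ ∧ ∀ n, ∃ s : Finset K, s.card = 2 ^ (n / n₀) ∧ Fam p f (pw L n) α s := by
  obtain ⟨n₀, hn₀⟩ := cnd_stab hf hL
  have hP : ∀ n, ∀ S ∈ pw L n, Ok p f S := fun n S hS => hL S (mem_pw hS)
  by_cases hc : ∃ j y, Ch p (pw L j) y α ∧ ∀ t ∈ cnd p (pw L n₀), ¬ ntr p f t y
  · left
    obtain ⟨j, y, h1, h2⟩ := hc
    have hy := ch_clean (hP j) h1 hα
    refine ⟨j, per p f y, per_pos H y, fun n => ?_⟩
    obtain ⟨x, hx⟩ := ch_exists (hP n) hy
    refine ⟨x, ?_, ?_⟩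
    · rw [pw_add]
      exact (ch_append _ _ _ _).2 ⟨y, h1, hx⟩
    · rw [settled (hP n) hy (fun t ht => h2 t (hn₀ n ht)) hx, dg_pw]
  · right
    push Not at hc
    have h0 : 0 < n₀ := by
      rcases Nat.eq_zero_or_pos n₀ with h | h
      · obtain ⟨t, ht, -⟩ := hc 0 α (by rw [pw_zero]; rfl)
        rw [h, pw_zero] at ht
        exact ht.elim
      · exact h
    have h1 : ∀ k, ∃ s : Finset K, s.card = 2 ^ k ∧ Fam p f (pw L (n₀ * k)) α s := by
      intro k
      induction k with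
      | zero =>
        refine ⟨{α}, by simp, ?_, ?_⟩
        · intro x hx
          rw [mem_singleton.1 hx, mul_zero, pw_zero]
          rfl
        · intro x hx x' hx' _
          rw [mem_singleton.1 hx, mem_singleton.1 hx']
      | succ k ih =>
        obtain ⟨s, hs, hF⟩ := ih
        obtain ⟨s', hs', hF'⟩ := fam_double (hP n₀) hF (fun y hy =>
          unsettled (hP n₀) (ch_clean (hP _) (hF.1 y hy) hα) (hc _ y (hF.1 y hy))) H
        refine ⟨s', by rw [hs', hs, pow_succ, mul_comm], ?_⟩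
        rw [mul_add, mul_one, pw_add]
        exact hF'
    refine ⟨n₀, h0, fun n => ?_⟩
    obtain ⟨s, hs, hF⟩ := h1 (n / n₀)
    obtain ⟨s', hs', hF'⟩ := fam_lift (hP _) (hP (n % n₀)) hα hF
    refine ⟨s', hs'.trans hs, ?_⟩
    rwa [← pw_add, Nat.div_add_mod] at hF'

end Pool.Agent.FDT
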